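import Pool.Agent.MP_a43263_nt.VW.Red

/-! THEOREM V, part D: even classes are divisible by two over an algebraically closed field. -/

set_option autoImplicit false

noncomputable section

namespace Pool.Agent.MP_a43263_nt.VD

open Polynomial JC JC.Mum

namespace HalfA

section
variable {G : Type} [CommGroup G]

theorem g1 {y a b : G} (h : y ^ 2 = a * (b * b)) : (y / b) ^ 2 = a := by
  rw [div_pow, h, sq, mul_div_cancel_right]

theorem g2 {y a b : G} (h : y ^ 2 = a * b) : (a / y) ^ 2 = a * b⁻¹ := by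
  rw [div_pow, h, sq, mul_div_mul_left_eq_div, div_eq_mul_inv]

theorem g3 {y z W P : G} (n : ℕ) (h : z ^ 2 = W * P) :
    P * (W ^ n * y ^ 2) = W ^ (n + 1) * (y * z / W) ^ 2 := by
  rw [div_pow, mul_pow, h]
  apply Additive.ofMul.injective
  simp only [ofMul_mul, ofMul_pow, ofMul_div]
  module

theorem g4 (y W : G) (m : ℕ) : (W ^ m * y) ^ 2 = W ^ (m + m) * y ^ 2 := by
  rw [mul_pow, ← pow_mul, mul_two]
end

variable {K : Type} [Field K] [IsAlgClosed K] {g : ℕ} {f : K[X]}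

theorem split {p : K[X]} {n : ℕ} (h : p.natDegree = n + 1) :
    ∃ (a : K) (q : K[X]), p = (X - C a) * q ∧ q ≠ 0 ∧ q.natDegree = n := by
  have p0 : p ≠ 0 := by
    rintro rfl
    simp at h
  obtain ⟨a, ha⟩ := IsAlgClosed.exists_root p (by
    rw [degree_eq_natDegree p0, h]
    exact_mod_cast Nat.succ_ne_zero n)
  obtain ⟨q, rfl⟩ := dvd_iff_isRoot.2 ha
  have q0 : q ≠ 0 := right_ne_zero_of_mul p0
  refine ⟨a, q, rfl, q0, ?_⟩
  rw [natDegree_mul (X_sub_C_ne_zero a) q0, natDegree_X_sub_C] at h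
  omega

theorem lin_sq {t x : K} (h : t ≠ x) (a : K) :
    ∃ α β : K, (X - C a : K[X]) = C α ^ 2 * (X - C t) + C β ^ 2 * (X - C x) := by
  obtain ⟨α, hα⟩ := IsAlgClosed.exists_pow_nat_eq ((a - x) / (t - x)) two_pos
  obtain ⟨β, hβ⟩ := IsAlgClosed.exists_pow_nat_eq ((t - a) / (t - x)) two_pos
  have h0 : t - x ≠ 0 := sub_ne_zero.2 h
  have e1 : α ^ 2 + β ^ 2 = 1 := by rw [hα, hβ]; field_simp; ring
  have e2 : α ^ 2 * t + β ^ 2 * x = a := by rw [hα, hβ]; field_simp; ring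
  have e3 := congrArg (C : K → K[X]) e1
  have e4 := congrArg (C : K → K[X]) e2
  simp only [map_add, map_mul, map_pow, map_one] at e3 e4
  exact ⟨α, β, by linear_combination e4 - X * e3⟩

theorem forms {t x : K} (h : t ≠ x) (n : ℕ) : ∀ p : K[X], p.natDegree = n →
    (Even n → ∃ A B, p = A ^ 2 + (X - C x) * (X - C t) * B ^ 2) ∧
    (Odd n → ∃ A B, p = (X - C t) * A ^ 2 + (X - C x) * B ^ 2) := by
  induction n with
  | zero =>
    intro p hp
    obtain ⟨c, hc⟩ := IsAlgClosed.exists_pow_nat_eq (p.coeff 0) two_pos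
    refine ⟨fun _ => ⟨C c, 0, ?_⟩, fun o => absurd o (by simp)⟩
    rw [eq_C_of_natDegree_eq_zero hp, ← hc]
    simp
  | succ n ih =>
    intro p hp
    obtain ⟨a, q, rfl, -, hq⟩ := split hp
    obtain ⟨α, β, e⟩ := lin_sq h a
    constructor
    · intro ev
      obtain ⟨A, B, rfl⟩ := (ih q hq).2 (by
        rw [Nat.even_add_one] at ev; exact Nat.not_even_iff_odd.1 ev)
      exact ⟨C α * (X - C t) * A - C β * (X - C x) * B, C β * A + C α * B, by rw [e]; ring⟩
    · intro od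
      obtain ⟨A, B, rfl⟩ := (ih q hq).1 (by
        rw [Nat.odd_add_one] at od; exact Nat.not_odd_iff_even.1 od)
      exact ⟨C α * A - C β * (X - C x) * B, C β * A + C α * (X - C t) * B, by rw [e]; ring⟩

variable [CharZero K]

theorem prin_sq (prin : PRINStmt) (s : Sv g f) {h : Rg f} (h0 : h ≠ 0)
    (hp : par (cx (Ideal.span {h})) = 0) : ∃ y, y ^ 2 = cx (Ideal.span {h}) := by
  obtain ⟨c, hc⟩ := IsAlgClosed.exists_pow_nat_eq f.leadingCoeff two_pos
  obtain ⟨V, hV⟩ := (prin K g f s).2.1 c hc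
  obtain ⟨k, hk⟩ := Subgroup.mem_zpowers_iff.1 ((prin K g f s).2.2 V hV h h0)
  have n0 : f - V ^ 2 ≠ 0 := fun e => by rw [e] at hV; simp at hV
  obtain ⟨U, hU, hA⟩ := JM.Move.exists_monic n0
  have pe : par (cx (Ideal.span {(⟨-V, 1⟩ : Rg f)})) = 1 := by
    rw [← MI_norm, MI_assoc hA, s.par_MI hU hA.symm.dvd,
      ← natDegree_eq_natDegree (degree_eq_degree_of_associated hA), hV]
    exact ZMod.natCast_eq_one_iff_odd.2 (odd_two_mul_add_one g)
  obtain ⟨j, rfl | rfl⟩ := Int.even_or_odd' k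
  · exact ⟨_ ^ j, by rw [← hk, mul_comm, zpow_mul]; rfl⟩
  · rw [← hk, zpow_add_one, mul_comm 2 j, zpow_mul, s.par_mul, pe] at hp
    have := s.par_sq (cx (Ideal.span {(⟨-V, 1⟩ : Rg f)}) ^ j)
    rw [show ∀ z : Cx f, z ^ (2 : ℤ) = z ^ 2 from fun z => zpow_natCast z 2, this] at hp
    simp at hp

theorem point (prin : PRINStmt) (s : Sv g f) {t : K} (ht : X - C t ∣ f) (x : K) (V : K[X])
    (hV : X - C x ∣ f - V ^ 2) :
    ∃ y, y ^ 2 = cx (MI f (X - C t) 0) * cx (MI f (X - C x) V) := by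
  by_cases h : t = x
  · subst h
    have : X - C t ∣ V := (prime_X_sub_C t).dvd_of_dvd_pow (n := 2) (by
      simpa using dvd_sub ht hV)
    exact ⟨_, by rw [MI_congr (V := V) (V' := 0) (by simpa using this), sq]⟩
  obtain ⟨f1, e⟩ := ht
  have f0 : f1 ≠ 0 := right_ne_zero_of_mul (e ▸ s.ne)
  have hd : f1.natDegree = 2 * g + 1 := by
    have := s.deg
    rw [e, natDegree_mul (X_sub_C_ne_zero t) f0, natDegree_X_sub_C] at this
    omega
  obtain ⟨A, B, e1⟩ := (forms h _ f1 hd).2 (odd_two_mul_add_one g)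
  have e2 : f - ((X - C t) * A) ^ 2 = (X - C t) * (X - C x) * (B * B) := by
    rw [e, e1]; ring
  have h0 : (⟨-((X - C t) * A), 1⟩ : Rg f) ≠ 0 := fun e =>
    one_ne_zero (congrArg QuadraticAlgebra.im e)
  have B0 : B ≠ 0 := by
    rintro rfl
    refine s.nr_ne h0 ?_
    simp only [nr]
    linear_combination -e2
  obtain ⟨B', hB, hA⟩ := JM.Move.exists_monic B0
  have as : Associated (f - ((X - C t) * A) ^ 2) ((X - C t) * (X - C x) * (B' * B')) :=
    e2 ▸ (Associated.refl _).mul_mul (hA.mul_mul hA)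
  have d := as.symm.dvd
  have m1 := monic_X_sub_C t
  have m0 := monic_X_sub_C x
  have k : Ideal.span {(⟨-((X - C t) * A), 1⟩ : Rg f)} =
      MI f ((X - C t) * (X - C x) * (B' * B')) ((X - C t) * A) := by
    rw [← MI_norm, MI_assoc as]
  obtain ⟨y, hy⟩ := prin_sq prin s h0 (by
    rw [k, s.par_MI ((m1.mul m0).mul (hB.mul hB)) d, (m1.mul m0).natDegree_mul (hB.mul hB),
      m1.natDegree_mul m0, hB.natDegree_mul hB, natDegree_X_sub_C, natDegree_X_sub_C]
    exact ZMod.natCast_eq_zero_iff_even.2 ⟨1 + B'.natDegree, by ring⟩)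
  rw [k, s.cx_MI_mul (m1.mul m0) (hB.mul hB) d,
    s.cx_MI_mul m1 m0 ((dvd_mul_right _ _).trans d), s.cx_MI_mul hB hB ((dvd_mul_left _ _).trans d),
    MI_congr (U := X - C t) (V := (X - C t) * A) (V' := 0) (by simp)] at hy
  have d0 : X - C x ∣ f - ((X - C t) * A) ^ 2 :=
    ((dvd_mul_left _ _).trans (dvd_mul_right _ _)).trans d
  have hy' : (y / cx (MI f B' ((X - C t) * A))) ^ 2 =
      cx (MI f (X - C t) 0) * cx (MI f (X - C x) ((X - C t) * A)) := g1 (G := Cx f) hy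
  have dv : X - C x ∣ (V - (X - C t) * A) * (V - -((X - C t) * A)) := by
    have := dvd_sub d0 hV
    rwa [show f - ((X - C t) * A) ^ 2 - (f - V ^ 2) =
      (V - (X - C t) * A) * (V - -((X - C t) * A)) by ring] at this
  rcases (prime_X_sub_C x).dvd_or_dvd dv with c | c
  · exact ⟨_, by rw [MI_congr c, hy']⟩
  · refine ⟨cx (MI f (X - C t) 0) / (y / cx (MI f B' ((X - C t) * A))), ?_⟩
    rw [MI_congr c, ← cj_MI, cx_cj (s.nu_MI m0 d0)]
    exact g2 (G := Cx f) hy'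

theorem all (prin : PRINStmt) (s : Sv g f) {t : K} (ht : X - C t ∣ f) (V : K[X]) (n : ℕ) :
    ∀ U : K[X], U.Monic → U.natDegree = n → U ∣ f - V ^ 2 →
      ∃ y, cx (MI f U V) = cx (MI f (X - C t) 0) ^ n * y ^ 2 := by
  induction n with
  | zero =>
    intro U hU hn _
    rw [hU.natDegree_eq_zero.1 hn, MI_one, cx_top]
    exact ⟨1, by simp⟩
  | succ n ih =>
    intro U hU hn hd
    obtain ⟨a, q, rfl, -, hq⟩ := split hn
    have mq : q.Monic := (monic_X_sub_C a).of_mul_monic_left hU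
    obtain ⟨y, hy⟩ := ih q mq hq ((dvd_mul_left _ _).trans hd)
    obtain ⟨z, hz⟩ := point prin s ht a V ((dvd_mul_right _ _).trans hd)
    refine ⟨y * z / cx (MI f (X - C t) 0), ?_⟩
    rw [s.cx_MI_mul (monic_X_sub_C a) mq hd, hy]
    exact g3 (G := Cx f) n hz

end HalfA

open HalfA

theorem half (prin : PRINStmt) : HALFStmt := by
  intro K _ _ _ g f s x hx
  obtain ⟨t, q, e, -, -⟩ := split (n := 2 * g + 1) s.deg
  obtain ⟨U, V, hU, hd, rfl⟩ := s.cx_surj x
  obtain ⟨y, hy⟩ := all prin s ⟨q, e⟩ V _ U hU rfl hd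
  rw [s.par_MI hU hd] at hx
  obtain ⟨m, hm⟩ := ZMod.natCast_eq_zero_iff_even.1 hx
  exact ⟨cx (MI f (X - C t) 0) ^ m * y, by rw [hy, hm]; exact g4 (G := Cx f) _ _ m⟩

end Pool.Agent.MP_a43263_nt.VD
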