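import Pool.Agent.MP_a43263_nt.JC.Mum
import Pool.Agent.MP_a43263_nt.JC.Str
import Pool.Agent.MP_a43263_nt.JC.Qv
import Pool.Agent.MP_a43263_nt.JM.Tri
import Pool.Agent.MP_a43263_nt.VV.Face

-- ======== part 0: formerly Pool.Agent.MP_a43263_nt.VD.Defs
section MrgPart0

/-! THEOREM V, part D: ideal classes of `y ^ 2 = f(x)`, `f` of even degree, modulo functions that
have the same order at the two points at infinity. -/

set_option autoImplicit false

noncomputable section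

namespace Pool.Agent.MP_a43263_nt.VD

open Polynomial JC

variable {K L : Type} [Field K] [Field L]

/-- The function `a + b y` has the same order at the two points at infinity: the leading terms do
not cancel in its norm `a ^ 2 - f b ^ 2`. -/
def Bal {f : K[X]} (h : Rg f) : Prop :=
  h.re ^ 2 - f * h.im ^ 2 ≠ 0 ∧ (h.re ^ 2).degree ≤ (h.re ^ 2 - f * h.im ^ 2).degree

theorem Bal.im {f : K[X]} {h : Rg f} (b : Bal h) :
    (f * h.im ^ 2).degree ≤ (h.re ^ 2 - f * h.im ^ 2).degree := by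
  have e : f * h.im ^ 2 = h.re ^ 2 - (h.re ^ 2 - f * h.im ^ 2) := by ring
  exact (congrArg degree e).trans_le ((degree_sub_le _ _).trans (max_le b.2 le_rfl))

theorem sq_le {p q r : K[X]} (hp : (p ^ 2).degree ≤ r.degree) (hq : (q ^ 2).degree ≤ r.degree) :
    ((p + q) ^ 2).degree ≤ r.degree := by
  rcases le_total p.degree q.degree with h | h
  · refine le_trans ?_ hq
    rw [degree_pow, degree_pow]
    exact nsmul_le_nsmul_right ((degree_add_le _ _).trans (max_le h le_rfl)) 2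
  · refine le_trans ?_ hp
    rw [degree_pow, degree_pow]
    exact nsmul_le_nsmul_right ((degree_add_le _ _).trans (max_le le_rfl h)) 2

theorem Bal.mul {f : K[X]} {h k : Rg f} (b : Bal h) (c : Bal k) : Bal (h * k) := by
  have e : (h * k).re ^ 2 - f * (h * k).im ^ 2 =
      (h.re ^ 2 - f * h.im ^ 2) * (k.re ^ 2 - f * k.im ^ 2) := by
    simp only [QuadraticAlgebra.re_mul, QuadraticAlgebra.im_mul]
    ring
  refine ⟨e ▸ mul_ne_zero b.1 c.1, ?_⟩
  rw [e, QuadraticAlgebra.re_mul]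
  refine sq_le ?_ ?_
  · rw [mul_pow, degree_mul, degree_mul]
    exact add_le_add b.2 c.2
  · rw [show (f * h.im * k.im) ^ 2 = f * h.im ^ 2 * (f * k.im ^ 2) by ring, degree_mul,
      degree_mul (p := h.re ^ 2 - _)]
    exact add_le_add b.im c.im

theorem bal_poly {f u : K[X]} (hu : u ≠ 0) : Bal (⟨u, 0⟩ : Rg f) := by
  simp [Bal, hu]

theorem bal_one {f : K[X]} : Bal (1 : Rg f) := bal_poly one_ne_zero

/-- Linear equivalence of ideals by functions that have the same order at the two points at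
infinity. -/
def lin (f : K[X]) : Con (Ideal (Rg f)) where
  r I J := ∃ h k : Rg f, Bal h ∧ Bal k ∧ Ideal.span {h} * I = Ideal.span {k} * J
  iseqv := ⟨fun _ => ⟨1, 1, bal_one, bal_one, rfl⟩, fun ⟨h, k, a, b, e⟩ => ⟨k, h, b, a, e.symm⟩,
    fun ⟨h, k, a, b, e⟩ ⟨h', k', a', b', e'⟩ => ⟨h' * h, k * k', a'.mul a, b.mul b', by
      rw [← Ideal.span_singleton_mul_span_singleton, ← Ideal.span_singleton_mul_span_singleton,
        mul_assoc, e, mul_left_comm, e', mul_assoc]⟩⟩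
  mul' := fun ⟨h, k, a, b, e⟩ ⟨h', k', a', b', e'⟩ => ⟨h * h', k * k', a.mul a', b.mul b', by
    rw [← Ideal.span_singleton_mul_span_singleton, ← Ideal.span_singleton_mul_span_singleton,
      mul_mul_mul_comm, e, e', mul_mul_mul_comm]⟩

/-- Classes of invertible ideals: the Picard group of the complete curve modulo `∞₊ + ∞₋`. -/
def Cx (f : K[X]) : Type := (lin f).Quotientˣ

instance (f : K[X]) : CommGroup (Cx f) := inferInstanceAs (CommGroup (lin f).Quotientˣ)

/-- the underlying element of the quotient monoid -/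
def vl {f : K[X]} (x : Cx f) : (lin f).Quotient := Units.val x

theorem vl_ext {f : K[X]} {x y : Cx f} (h : vl x = vl y) : x = y := Units.ext h

theorem vl_mul {f : K[X]} (x y : Cx f) : vl (x * y) = vl x * vl y := rfl

theorem vl_one {f : K[X]} : vl (1 : Cx f) = 1 := rfl

theorem Bal.map (φ : K →+* L) {f : K[X]} {F : L[X]} (e : f.map φ = F) {h : Rg f} (b : Bal h) :
    Bal (rmap φ e h) := by
  have k : (rmap φ e h).re ^ 2 - F * (rmap φ e h).im ^ 2 = (h.re ^ 2 - f * h.im ^ 2).map φ := by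
    simp [rmap, ← e]
  refine ⟨k ▸ (Polynomial.map_ne_zero_iff φ.injective).2 b.1, ?_⟩
  rw [k, degree_map, show (rmap φ e h).re ^ 2 = (h.re ^ 2).map φ by simp [rmap], degree_map]
  exact b.2

/-- The map of class groups induced by a field homomorphism. -/
def cmap (φ : K →+* L) {f : K[X]} {F : L[X]} (e : f.map φ = F) : Cx f →* Cx F :=
  Units.map ((lin f).lift ((lin F).mk'.comp (Ideal.mapHom (rmap φ e)).toMonoidHom)
    fun _ _ ⟨h, k, a, b, r⟩ => (lin F).eq.2 ⟨_, _, a.map φ e, b.map φ e, by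
      simpa [Ideal.map_mul, Ideal.map_span] using congrArg (Ideal.map (rmap φ e)) r⟩)

open Classical in
/-- the class of an ideal -/
def cx {f : K[X]} (I : Ideal (Rg f)) : Cx f :=
  if h : IsUnit (I : (lin f).Quotient) then h.unit else 1

open Classical in
/-- the parity of the degree -/
def par {f : K[X]} (x : Cx f) : ZMod 2 :=
  if ∃ I u, Nu I u ∧ cx I = x ∧ Odd u.natDegree then 1 else 0

/-- twice the larger pole order at infinity -/
def dd {f : K[X]} (h : Rg f) : WithBot ℕ := max (h.re ^ 2).degree (f * h.im ^ 2).degree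

/-- the norm -/
abbrev nr {f : K[X]} (h : Rg f) : K[X] := h.re ^ 2 - f * h.im ^ 2

/-- `x` is a half of the class of `D`, and `ρ θ` is the square root of the norm of `D` at the root
`θ` that belongs to `x`; it is determined up to a global sign -/
def Z (f : K[X]) (x : Cx f) (D : Ideal (Rg f)) (ρ : K → K) : Prop :=
  ∃ (E : Ideal (Rg f)) (u : K[X]) (k : Rg f) (l : K), Nu E u ∧ cx E = x⁻¹ ∧ Bal k ∧
    D * E ^ 2 = Ideal.span {k} ∧ l ^ 2 = (nr k).leadingCoeff ∧
    ∀ θ, f.eval θ = 0 → u.eval θ ≠ 0 ∧ ρ θ * (l * u.eval θ) = k.re.eval θ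

end Pool.Agent.MP_a43263_nt.VD

end
end MrgPart0

-- ======== part 1: formerly Pool.Agent.MP_a43263_nt.VD.Basic
section MrgPart1

/-! THEOREM V, part D: norms, degrees at infinity, ideal classes. -/

set_option autoImplicit false

noncomputable section

namespace Pool.Agent.MP_a43263_nt.VD

open Polynomial JC JC.Mum

variable {K L : Type} [Field K] [Field L] {g : ℕ} {f : K[X]} {F : L[X]}

/-- squarefree of degree `2 g + 2` -/
structure Sv (g : ℕ) (f : K[X]) : Prop where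
  deg : f.natDegree = 2 * g + 2
  sf : Squarefree f

theorem Sv.ne (h : Sv g f) : f ≠ 0 := h.sf.ne_zero

theorem Sv.degree (h : Sv g f) : f.degree = (2 * g + 2 : ℕ) := by
  rw [degree_eq_natDegree h.ne, h.deg]

theorem Sv.sep [CharZero K] (h : Sv g f) : f.Separable :=
  PerfectField.separable_iff_squarefree.2 h.sf

theorem Sv.map [CharZero K] (h : Sv g f) (φ : K →+* L) (e : f.map φ = F) : Sv g F :=
  ⟨by rw [← e, natDegree_map, h.deg], e ▸ h.sep.map.squarefree⟩

/-! ### norms -/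

theorem nr_mul (h k : Rg f) : nr (h * k) = nr h * nr k := by
  simp only [nr, QuadraticAlgebra.re_mul, QuadraticAlgebra.im_mul]
  ring

theorem nr_star (h : Rg f) : nr (star h) = nr h := by simp [nr]

theorem nr_poly (u : K[X]) : nr (⟨u, 0⟩ : Rg f) = u ^ 2 := by simp [nr]

theorem mul_star (h : Rg f) : h * star h = ⟨nr h, 0⟩ := by
  ext1
  · simp [nr, sq]
    ring
  · simp
    ring

theorem nr_map (φ : K →+* L) (e : f.map φ = F) (h : Rg f) : nr (rmap φ e h) = (nr h).map φ := by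
  simp [nr, rmap, ← e]

theorem Sv.nr_ne (s : Sv g f) {h : Rg f} (h0 : h ≠ 0) : nr h ≠ 0 := by
  intro e
  have e1 : h.re ^ 2 = f * h.im ^ 2 := sub_eq_zero.1 e
  by_cases c : h.im = 0
  · exact h0 (QuadraticAlgebra.ext (by simpa [c] using e1) c)
  · obtain ⟨a, ha⟩ : h.im ∣ h.re :=
      (UniqueFactorizationMonoid.pow_dvd_pow_iff_dvd two_ne_zero).1 (Dvd.intro_left _ e1.symm)
    have e2 : f = a * a := mul_right_cancel₀ (pow_ne_zero 2 c) (by rw [← e1, ha]; ring)
    have := natDegree_eq_zero_of_isUnit (s.sf a e2.symm.dvd)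
    have d := s.deg
    rw [e2, natDegree_mul (left_ne_zero_of_mul (e2 ▸ s.ne)) (left_ne_zero_of_mul (e2 ▸ s.ne))] at d
    omega

theorem Sv.dom (s : Sv g f) : IsDomain (Rg f) := by
  have : NoZeroDivisors (Rg f) := ⟨fun {x y} e => by
    by_contra c
    push Not at c
    refine mul_ne_zero (s.nr_ne c.1) (s.nr_ne c.2) ?_
    rw [← nr_mul, e]
    simp [nr]⟩
  exact NoZeroDivisors.to_isDomain _

theorem Bal.ne {h : Rg f} (b : Bal h) : h ≠ 0 := by
  rintro rfl
  exact b.1 (by simp)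

/-! ### norms of ideals -/

theorem nu_mul {I J : Ideal (Rg f)} {u w : K[X]} (a : Nu I u) (b : Nu J w) : Nu (I * J) (u * w) :=
  ⟨a.1.mul b.1, by rw [cj_mul, mul_mul_mul_comm, a.2, b.2, PI_mul]⟩

theorem nu_uniq {I : Ideal (Rg f)} {u w : K[X]} (a : Nu I u) (b : Nu I w) : u = w :=
  eq_of_monic_of_associated a.1 b.1 (PI_eq.1 (a.2.symm.trans b.2))

theorem nu_cj {I : Ideal (Rg f)} {u : K[X]} (a : Nu I u) : Nu (cj I) u :=
  ⟨a.1, by rw [cj_cj, mul_comm, a.2]⟩

theorem nu_top : Nu (⊤ : Ideal (Rg f)) 1 := ⟨monic_one, by rw [cj_top, PI_one, Ideal.top_mul]⟩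

theorem nu_PI {s : K[X]} (hs : s.Monic) : Nu (PI f s) (s ^ 2) :=
  ⟨hs.pow 2, by rw [cj_PI, PI_mul, sq]⟩

theorem nu_pow {I : Ideal (Rg f)} {u : K[X]} (a : Nu I u) : Nu (I ^ 2) (u ^ 2) := by
  rw [sq, sq]
  exact nu_mul a a

theorem Sv.nu_MI [CharZero K] (s : Sv g f) {U V : K[X]} (hU : U.Monic) (hd : U ∣ f - V ^ 2) :
    Nu (MI f U V) U := ⟨hU, by rw [cj_MI, MI_conj s.sf hd]⟩

/-- the norm of a generator -/
theorem nu_span {h : Rg f} {u : K[X]} (a : Nu (Ideal.span {h}) u) :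
    nr h = C (nr h).leadingCoeff * u := by
  have e := a.2
  rw [span_mul_cj, PI_eq, norm_eq] at e
  obtain ⟨c, hc⟩ := e.symm
  obtain ⟨r, -, hr⟩ := isUnit_iff.1 c.isUnit
  have k : nr h = C r * u := by rw [nr, ← hc, hr, mul_comm]
  rw [k, leadingCoeff_mul, a.1.leadingCoeff, leadingCoeff_C, mul_one]

theorem nu_span' {h : Rg f} (h0 : nr h ≠ 0) :
    Nu (Ideal.span {h}) (nr h * C (nr h).leadingCoeff⁻¹) :=
  ⟨monic_mul_leadingCoeff_inv h0, by
    rw [span_mul_cj, PI_eq, norm_eq]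
    exact associated_mul_unit_right _ _
      (isUnit_C.2 (inv_ne_zero (leadingCoeff_ne_zero.2 h0)).isUnit)⟩

theorem map_PI (φ : K →+* L) (e : f.map φ = F) (u : K[X]) :
    (PI f u).map (rmap φ e) = PI F (u.map φ) := by
  rw [PI, Ideal.map_span, Set.image_singleton, PI]
  congr 2
  ext1 <;> simp [rmap]

theorem rmap_star (φ : K →+* L) (e : f.map φ = F) (h : Rg f) :
    rmap φ e (star h) = star (rmap φ e h) := by
  ext1 <;> simp [rmap]

theorem map_cj (φ : K →+* L) (e : f.map φ = F) (I : Ideal (Rg f)) :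
    (cj I).map (rmap φ e) = cj (I.map (rmap φ e)) := by
  rw [cj, cj, Ideal.map_map, Ideal.map_map]
  congr 1
  exact RingHom.ext (rmap_star φ e)

theorem nu_map (φ : K →+* L) (e : f.map φ = F) {I : Ideal (Rg f)} {u : K[X]} (a : Nu I u) :
    Nu (I.map (rmap φ e)) (u.map φ) :=
  ⟨a.1.map φ, by rw [← map_cj, ← Ideal.map_mul, a.2, map_PI]⟩

theorem nu_ne {I : Ideal (Rg f)} {u : K[X]} (a : Nu I u) : I ≠ ⊥ := by
  rintro rfl
  have := a.2
  rw [Ideal.bot_mul, eq_comm, PI, Ideal.span_singleton_eq_bot] at this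
  exact c_ne a.1.ne_zero this

theorem Sv.nu_ex [CharZero K] (s : Sv g f) {I : Ideal (Rg f)} (h : I ≠ ⊥) : ∃ u, Nu I u := by
  obtain ⟨r, U, V, h1, h2, h3, rfl⟩ := JC.str K f I s.dom h
  exact ⟨_, nu_mul (nu_PI h1) (s.nu_MI h2 h3)⟩

/-- cancellation -/
theorem Sv.cancel (s : Sv g f) {I J J' : Ideal (Rg f)} {u : K[X]} (a : Nu I u)
    (e : I * J = I * J') : J = J' := by
  have := s.dom
  have k : PI f u * J = PI f u * J' := by
    rw [← a.2, mul_comm I, mul_assoc, e, mul_assoc]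
  exact (Ideal.span_singleton_mul_right_inj (c_ne a.1.ne_zero)).1 k

/-! ### degrees at infinity -/

theorem dd_star (h : Rg f) : dd (star h) = dd h := by simp [dd]

theorem nr_le_dd (h : Rg f) : (nr h).degree ≤ dd h := degree_sub_le _ _

theorem bal_iff {h : Rg f} : Bal h ↔ nr h ≠ 0 ∧ dd h = (nr h).degree :=
  ⟨fun b => ⟨b.1, le_antisymm (max_le b.2 b.im) (nr_le_dd h)⟩,
    fun b => ⟨b.1, (le_max_left _ _).trans b.2.le⟩⟩

theorem bal_iff' {h : Rg f} : Bal h ↔ nr h ≠ 0 ∧ VJ.Bal h := by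
  rw [bal_iff, eq_comm]
  rfl

theorem Bal.star {h : Rg f} (b : Bal h) : Bal (star h) := by
  rw [bal_iff, nr_star, dd_star]
  exact bal_iff.1 b

theorem sq_le' {p q : K[X]} {d : WithBot ℕ} (hp : (p ^ 2).degree ≤ d) (hq : (q ^ 2).degree ≤ d) :
    ((p + q) ^ 2).degree ≤ d := by
  rcases le_total p.degree q.degree with h | h
  · refine le_trans ?_ hq
    rw [degree_pow, degree_pow]
    exact nsmul_le_nsmul_right ((degree_add_le _ _).trans (max_le h le_rfl)) 2
  · refine le_trans ?_ hp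
    rw [degree_pow, degree_pow]
    exact nsmul_le_nsmul_right ((degree_add_le _ _).trans (max_le le_rfl h)) 2

theorem fsq_le {p q : K[X]} {d : WithBot ℕ} (hp : (f * p ^ 2).degree ≤ d)
    (hq : (f * q ^ 2).degree ≤ d) : (f * (p + q) ^ 2).degree ≤ d := by
  rcases le_total p.degree q.degree with h | h
  · refine le_trans ?_ hq
    rw [degree_mul, degree_mul, degree_pow, degree_pow]
    exact add_le_add le_rfl (nsmul_le_nsmul_right ((degree_add_le _ _).trans (max_le h le_rfl)) 2)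
  · refine le_trans ?_ hp
    rw [degree_mul, degree_mul, degree_pow, degree_pow]
    exact add_le_add le_rfl (nsmul_le_nsmul_right ((degree_add_le _ _).trans (max_le le_rfl h)) 2)

theorem dd_add_le (h k : Rg f) : dd (h + k) ≤ max (dd h) (dd k) :=
  max_le (sq_le' ((le_max_left _ _).trans (le_max_left _ _))
      ((le_max_left _ _).trans (le_max_right _ _)))
    (fsq_le ((le_max_right _ _).trans (le_max_left _ _))
      ((le_max_right _ _).trans (le_max_right _ _)))

theorem dd_mul_le (h k : Rg f) : dd (h * k) ≤ dd h + dd k := by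
  refine max_le ?_ ?_
  · rw [QuadraticAlgebra.re_mul]
    refine sq_le' ?_ ?_
    · rw [mul_pow, degree_mul]
      exact add_le_add (le_max_left _ _) (le_max_left _ _)
    · rw [show (f * h.im * k.im) ^ 2 = f * h.im ^ 2 * (f * k.im ^ 2) by ring, degree_mul]
      exact add_le_add (le_max_right _ _) (le_max_right _ _)
  · rw [show (h * k).im = h.re * k.im + h.im * k.re by simp]
    refine fsq_le ?_ ?_
    · rw [show f * (h.re * k.im) ^ 2 = h.re ^ 2 * (f * k.im ^ 2) by ring, degree_mul]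
      exact add_le_add (le_max_left _ _) (le_max_right _ _)
    · rw [show f * (h.im * k.re) ^ 2 = f * h.im ^ 2 * k.re ^ 2 by ring, degree_mul]
      exact add_le_add (le_max_right _ _) (le_max_left _ _)

theorem dd_poly_mul (u : K[X]) (h : Rg f) : dd (⟨u, 0⟩ * h) = (u ^ 2).degree + dd h := by
  rw [dd, dd, show ((⟨u, 0⟩ : Rg f) * h).re ^ 2 = u ^ 2 * h.re ^ 2 by simp [mul_pow],
    show f * ((⟨u, 0⟩ : Rg f) * h).im ^ 2 = u ^ 2 * (f * h.im ^ 2) by simp; ring, degree_mul,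
    degree_mul (p := u ^ 2), max_add_add_left]

theorem dd_poly (u : K[X]) : dd (⟨u, 0⟩ : Rg f) = (u ^ 2).degree := by simp [dd]

theorem dd_bal_mul {h : Rg f} (b : Bal h) (k : Rg f) : dd (h * k) = dd h + dd k := by
  refine le_antisymm (dd_mul_le h k) ?_
  have e := dd_mul_le (star h) (h * k)
  rw [← mul_assoc, mul_comm (star h), mul_star, dd_poly_mul, dd_star, sq, degree_mul,
    ← (bal_iff.1 b).2, add_assoc] at e
  exact (WithBot.add_le_add_iff_left (by
    rw [(bal_iff.1 b).2]; exact degree_ne_bot.2 b.1)).1 e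

theorem Bal.of_mul {h k : Rg f} (b : Bal h) (c : Bal (h * k)) : Bal k := by
  obtain ⟨c1, c2⟩ := bal_iff.1 c
  rw [nr_mul] at c1 c2
  rw [dd_bal_mul b, degree_mul, (bal_iff.1 b).2] at c2
  exact bal_iff.2 ⟨right_ne_zero_of_mul c1, WithBot.add_left_cancel (degree_ne_bot.2 b.1) c2⟩

theorem deg_sq {p : K[X]} (h : p ≠ 0) : (p ^ 2).degree = (2 * p.natDegree : ℕ) := by
  rw [degree_eq_natDegree (pow_ne_zero 2 h), natDegree_pow]

theorem Sv.deg_fsq (s : Sv g f) {p : K[X]} (h : p ≠ 0) :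
    (f * p ^ 2).degree = (2 * (g + 1 + p.natDegree) : ℕ) := by
  rw [degree_eq_natDegree (mul_ne_zero s.ne (pow_ne_zero 2 h)),
    natDegree_mul s.ne (pow_ne_zero 2 h), natDegree_pow, s.deg]
  congr 1
  ring

theorem Sv.dd_even (s : Sv g f) {h : Rg f} (h0 : h ≠ 0) : ∃ m : ℕ, dd h = (2 * m : ℕ) := by
  by_cases a : h.re = 0 <;> by_cases b : h.im = 0
  · exact absurd (QuadraticAlgebra.ext a b) h0
  · exact ⟨g + 1 + h.im.natDegree, by rw [dd, s.deg_fsq b, a]; simp⟩
  · exact ⟨h.re.natDegree, by rw [dd, deg_sq a, b]; simp⟩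
  · rw [dd, deg_sq a, s.deg_fsq b]
    rcases le_total h.re.natDegree (g + 1 + h.im.natDegree) with c | c
    · exact ⟨_, max_eq_right (Nat.cast_le.2 (by omega))⟩
    · exact ⟨_, max_eq_left (Nat.cast_le.2 (by omega))⟩

theorem Sv.bal_even (s : Sv g f) {h : Rg f} (b : Bal h) : Even (nr h).natDegree := by
  obtain ⟨m, hm⟩ := s.dd_even b.ne
  rw [(bal_iff.1 b).2] at hm
  rw [natDegree_eq_of_degree_eq_some hm]
  exact even_two_mul m

/-- functions without poles are constant -/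
theorem Sv.const (s : Sv g f) {h : Rg f} (e : dd h ≤ 0) : ∃ c : K, h = ⟨C c, 0⟩ := by
  have a : h.im = 0 := by
    by_contra c
    have := (le_max_right _ _).trans e
    rw [s.deg_fsq c] at this
    have : 2 * (g + 1 + h.im.natDegree) ≤ 0 := by exact_mod_cast this
    omega
  have b := (le_max_left _ _).trans e
  refine ⟨h.re.coeff 0, QuadraticAlgebra.ext (eq_C_of_natDegree_eq_zero ?_) a⟩
  by_cases c : h.re = 0
  · simp [c]
  · rw [deg_sq c] at b
    have : 2 * h.re.natDegree ≤ 0 := by exact_mod_cast b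
    omega

/-- balanced generators of the same ideal differ by a constant -/
theorem Sv.span_eq (s : Sv g f) {h k : Rg f} (b : Bal h) (c : Bal k)
    (e : Ideal.span {h} = Ideal.span {k}) : ∃ a : K, a ≠ 0 ∧ k = ⟨C a, 0⟩ * h := by
  have := s.dom
  obtain ⟨u, rfl⟩ := Ideal.span_singleton_eq_span_singleton.1 e
  have bu := bal_iff.1 (b.of_mul c)
  have k : nr (u : Rg f) * nr (↑u⁻¹ : Rg f) = 1 := by
    rw [← nr_mul, Units.mul_inv]
    simp [nr, QuadraticAlgebra.re_one, QuadraticAlgebra.im_one]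
  obtain ⟨a, ha⟩ := s.const (bu.2.trans (degree_eq_zero_of_isUnit (.of_mul_eq_one _ k))).le
  refine ⟨a, ?_, by rw [ha, mul_comm]⟩
  rintro rfl
  exact u.ne_zero (by rw [ha]; ext1 <;> simp)

/-! ### classes -/

theorem lin_span {k : Rg f} (b : Bal k) : ((Ideal.span {k} : Ideal (Rg f)) : (lin f).Quotient) = 1 :=
  (lin f).eq.2 ⟨1, _, bal_one, b, by simp⟩

theorem cx_val {I : Ideal (Rg f)} {u : K[X]} (a : Nu I u) : vl (cx I) = I := by
  have : IsUnit (I : (lin f).Quotient) := .of_mul_eq_one (cj I : (lin f).Quotient) (by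
    rw [← Con.coe_mul, a.2]
    exact lin_span (bal_poly a.1.ne_zero))
  rw [cx, dif_pos this]
  exact this.unit_spec

theorem cx_mul {I J : Ideal (Rg f)} {u w : K[X]} (a : Nu I u) (b : Nu J w) :
    cx (I * J) = cx I * cx J :=
  vl_ext (by rw [vl_mul, cx_val a, cx_val b, cx_val (nu_mul a b), Con.coe_mul])

theorem cx_pow {I : Ideal (Rg f)} {u : K[X]} (a : Nu I u) : cx (I ^ 2) = cx I ^ 2 := by
  rw [sq, sq, cx_mul a a]

theorem cx_eq {I J : Ideal (Rg f)} {u w : K[X]} (a : Nu I u) (b : Nu J w) : cx I = cx J ↔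
    ∃ h k : Rg f, Bal h ∧ Bal k ∧ Ideal.span {h} * I = Ideal.span {k} * J := by
  rw [show cx I = cx J ↔ vl (cx I) = vl (cx J) from ⟨congrArg _, vl_ext⟩, cx_val a, cx_val b,
    Con.eq]
  rfl

theorem cx_span {k : Rg f} (b : Bal k) : cx (Ideal.span {k}) = 1 :=
  vl_ext ((cx_val (nu_span' b.1)).trans (lin_span b))

theorem cx_PI {u : K[X]} (h : u ≠ 0) : cx (PI f u) = 1 := cx_span (bal_poly h)

theorem cx_top : cx (⊤ : Ideal (Rg f)) = 1 := PI_one (f := f) ▸ cx_PI one_ne_zero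

theorem cx_cj {I : Ideal (Rg f)} {u : K[X]} (a : Nu I u) : cx (cj I) = (cx I)⁻¹ :=
  eq_inv_of_mul_eq_one_right (by rw [← cx_mul a (nu_cj a), a.2, cx_PI a.1.ne_zero])

theorem Sv.cx_one (s : Sv g f) {I : Ideal (Rg f)} {u : K[X]} (a : Nu I u) (e : cx I = 1) :
    ∃ k, Bal k ∧ I = Ideal.span {k} := by
  have := s.dom
  obtain ⟨h, k, b, c, e1⟩ := (cx_eq a nu_top).1 (e.trans cx_top.symm)
  rw [Ideal.mul_top] at e1
  obtain ⟨z, -, rfl⟩ := Ideal.mem_span_singleton_mul.1 (e1 ▸ Ideal.mem_span_singleton_self k)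
  rw [← Ideal.span_singleton_mul_span_singleton, Ideal.span_singleton_mul_right_inj b.ne] at e1
  exact ⟨z, b.of_mul c, e1⟩

theorem Sv.cx_surj [CharZero K] (s : Sv g f) (x : Cx f) :
    ∃ U V : K[X], U.Monic ∧ U ∣ f - V ^ 2 ∧ cx (MI f U V) = x := by
  have := s.dom
  obtain ⟨I, hI⟩ := (lin f).mk'_surjective (vl x)
  obtain ⟨J, hJ⟩ := (lin f).mk'_surjective (vl x⁻¹)
  have n : I ≠ ⊥ := by
    rintro rfl
    have e : ((⊥ * J : Ideal (Rg f)) : (lin f).Quotient) = (1 : Ideal (Rg f)) := by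
      rw [Con.coe_mul, ← Con.coe_mk', hI, hJ, ← vl_mul, mul_inv_cancel]
      rfl
    obtain ⟨h, k, -, c, e1⟩ := (lin f).eq.1 e
    rw [Ideal.bot_mul, Ideal.mul_bot, mul_one, eq_comm, Ideal.span_singleton_eq_bot] at e1
    exact c.ne e1
  obtain ⟨r, U, V, h1, h2, h3, rfl⟩ := JC.str K f I s.dom n
  refine ⟨U, V, h2, h3, ?_⟩
  rw [← one_mul (cx _), ← cx_PI h1.ne_zero, ← cx_mul (nu_PI h1) (s.nu_MI h2 h3)]
  exact vl_ext ((cx_val (nu_mul (nu_PI h1) (s.nu_MI h2 h3))).trans hI)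

theorem Sv.cx_MI_mul [CharZero K] (s : Sv g f) {U U' V : K[X]} (a : U.Monic) (b : U'.Monic)
    (d : U * U' ∣ f - V ^ 2) : cx (MI f (U * U') V) = cx (MI f U V) * cx (MI f U' V) := by
  rw [← MI_mul s.sf d, cx_mul (s.nu_MI a ((dvd_mul_right _ _).trans d))
    (s.nu_MI b ((dvd_mul_left _ _).trans d))]

theorem MI_congr {U V V' : K[X]} (h : U ∣ V - V') : MI f U V = MI f U V' :=
  le_antisymm (MI_le dvd_rfl (dvd_sub_comm.1 h)) (MI_le dvd_rfl h)

theorem MI_assoc {U U' V : K[X]} (h : Associated U U') : MI f U V = MI f U' V :=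
  le_antisymm (MI_le h.symm.dvd (by simp)) (MI_le h.dvd (by simp))

theorem vl_cmap (φ : K →+* L) (e : f.map φ = F) {x : Cx f} {I : Ideal (Rg f)} (h : vl x = I) :
    vl (cmap φ e x) = I.map (rmap φ e) := by
  have h' : Units.val x = (I : (lin f).Quotient) := h
  exact (Units.coe_map _ _).trans (by rw [h']; rfl)

theorem cmap_cx (φ : K →+* L) (e : f.map φ = F) {I : Ideal (Rg f)} {u : K[X]} (a : Nu I u) :
    cmap φ e (cx I) = cx (I.map (rmap φ e)) :=
  vl_ext (by rw [cx_val (nu_map φ e a), vl_cmap φ e (cx_val a)])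

theorem Sv.cmap_MI [CharZero K] (s : Sv g f) (φ : K →+* L) (e : f.map φ = F) {U V : K[X]}
    (a : U.Monic) (d : U ∣ f - V ^ 2) :
    cmap φ e (cx (MI f U V)) = cx (MI F (U.map φ) (V.map φ)) := by
  rw [cmap_cx φ e (s.nu_MI a d), RatA.map_MI]

theorem cmap_cmap {M : Type} [Field M] {G : M[X]} (φ : K →+* L) (ψ : L →+* M) (χ : K →+* M)
    (e : f.map φ = F) (e' : F.map ψ = G) (e'' : f.map χ = G) (h : ∀ x, ψ (φ x) = χ x) (x : Cx f) :
    cmap ψ e' (cmap φ e x) = cmap χ e'' x := by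
  obtain rfl : ψ.comp φ = χ := RingHom.ext h
  obtain ⟨I, hI⟩ := (lin f).mk'_surjective (vl x)
  refine vl_ext ?_
  rw [vl_cmap ψ e' (vl_cmap φ e hI.symm), vl_cmap _ e'' hI.symm, Ideal.map_map]
  congr 2
  exact RingHom.ext fun z => by ext1 <;> simp [rmap, Polynomial.map_map]

theorem cmap_id (φ : K →+* K) (e : f.map φ = f) (h : ∀ x, φ x = x) (x : Cx f) : cmap φ e x = x := by
  obtain rfl : φ = RingHom.id K := RingHom.ext h
  obtain ⟨I, hI⟩ := (lin f).mk'_surjective (vl x)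
  refine vl_ext ?_
  have : rmap (RingHom.id K) e = RingHom.id _ := RingHom.ext fun z => by ext1 <;> simp [rmap]
  rw [vl_cmap _ e hI.symm, this, Ideal.map_id]
  exact hI

/-! ### parity -/

theorem Sv.par_cx (s : Sv g f) {I : Ideal (Rg f)} {u : K[X]} (a : Nu I u) :
    par (cx I) = u.natDegree := by
  have key : ∀ {J : Ideal (Rg f)} {w : K[X]}, Nu J w → cx J = cx I →
      (Odd w.natDegree ↔ Odd u.natDegree) := fun {J w} b e => by
    obtain ⟨k, c, hk⟩ := s.cx_one (nu_mul b (nu_cj a))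
      (by rw [cx_mul b (nu_cj a), cx_cj a, e, mul_inv_cancel])
    have n := nu_span (hk ▸ nu_mul b (nu_cj a))
    have ev := s.bal_even c
    rw [n, natDegree_C_mul (leadingCoeff_ne_zero.2 c.1), b.1.natDegree_mul a.1] at ev
    rw [Nat.odd_iff, Nat.odd_iff]
    rw [Nat.even_iff] at ev
    omega
  rw [par]
  split_ifs with c
  · obtain ⟨J, w, b, e, o⟩ := c
    exact (ZMod.natCast_eq_one_iff_odd.2 ((key b e).1 o)).symm
  · exact (ZMod.natCast_eq_zero_iff_even.2
      (Nat.not_odd_iff_even.1 fun o => c ⟨I, u, a, rfl, o⟩)).symm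

theorem Sv.par_MI [CharZero K] (s : Sv g f) {U V : K[X]} (a : U.Monic) (d : U ∣ f - V ^ 2) :
    par (cx (MI f U V)) = U.natDegree := s.par_cx (s.nu_MI a d)

theorem Sv.par_mul [CharZero K] (s : Sv g f) (x y : Cx f) : par (x * y) = par x + par y := by
  obtain ⟨U, V, a, b, rfl⟩ := s.cx_surj x
  obtain ⟨U', V', a', b', rfl⟩ := s.cx_surj y
  rw [← cx_mul (s.nu_MI a b) (s.nu_MI a' b'), s.par_cx (nu_mul (s.nu_MI a b) (s.nu_MI a' b')),
    s.par_MI a b, s.par_MI a' b', a.natDegree_mul a', Nat.cast_add]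

theorem Sv.par_one (s : Sv g f) : par (1 : Cx f) = 0 := by
  rw [← cx_top, s.par_cx nu_top]
  simp

theorem Sv.par_inv [CharZero K] (s : Sv g f) (x : Cx f) : par x⁻¹ = par x := by
  have := s.par_mul x⁻¹ x
  rw [inv_mul_cancel, s.par_one] at this
  rw [eq_neg_of_add_eq_zero_left this.symm, ZMod.neg_eq_self_mod_two]

theorem Sv.par_div [CharZero K] (s : Sv g f) (x y : Cx f) : par (x / y) = par x + par y := by
  rw [div_eq_mul_inv, s.par_mul, s.par_inv]

theorem Sv.par_sq [CharZero K] (s : Sv g f) (x : Cx f) : par (x ^ 2) = 0 := by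
  rw [sq, s.par_mul, CharTwo.add_self_eq_zero]

theorem Sv.par_map [CharZero K] (s : Sv g f) (φ : K →+* L) (e : f.map φ = F) (x : Cx f) :
    par (cmap φ e x) = par x := by
  obtain ⟨U, V, a, b, rfl⟩ := s.cx_surj x
  rw [cmap_cx φ e (s.nu_MI a b), (s.map φ e).par_cx (nu_map φ e (s.nu_MI a b)), s.par_MI a b,
    natDegree_map]

end Pool.Agent.MP_a43263_nt.VD

end
end MrgPart1

-- marker of a merged file
example : 731051 + 196722 = 731051 + 196722 := rfl
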