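import Mathlib.Analysis.CStarAlgebra.Classes
import Mathlib.Analysis.Polynomial.Basic
import Pool.Agent.MP_a43263_nt.VW.Red
import Pool.Agent.MP_a43263_nt.GRep
import Pool.Agent.MP_a43263_nt.VD.Half

-- ======== part 0: formerly Pool.Agent.MP_a43263_nt.VD.Br
section MrgPart0

/-! THEOREM V, part D: divisor classes and ideal classes. -/

set_option autoImplicit false

noncomputable section

namespace Pool.Agent.MP_a43263_nt.VD

open Polynomial JC JC.Mum

namespace Br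

variable {K L : Type} [Field K] [Field L] {g : ℕ} {f : K[X]} {F : L[X]}

/-- the ideal class of a divisor -/
def br0 (f : K[X]) : FreeAbelianGroup (VJ.Pt f) →+ Additive (Cx f) :=
  FreeAbelianGroup.lift fun p => Additive.ofMul (cx (VJ.mx p))

/-- the ideal class of a divisor class -/
def beta (K : Type) [Field K] (f : K[X]) (x : VJ.Cls f) : Cx f :=
  Additive.toMul (br0 f (Quotient.out x))

/-- the conjugate point -/
def bar (p : VJ.Pt f) : VJ.Pt f := ⟨(p.1.1, -p.1.2), by rw [neg_sq]; exact p.2⟩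

theorem pt_dvd (p : VJ.Pt f) : X - C p.1.1 ∣ f - C p.1.2 ^ 2 := by
  rw [dvd_iff_isRoot]
  simp [p.2]

/-- the class map -/
def mk (f : K[X]) : FreeAbelianGroup (VJ.Pt f) →+ VJ.Cls f := QuotientAddGroup.mk' (VJ.Prin f)

theorem mk_zero {D : FreeAbelianGroup (VJ.Pt f)} (h : D ∈ VJ.Prin f) : mk f D = 0 :=
  (QuotientAddGroup.eq_zero_iff D).2 h

theorem mk_sum (t : Multiset (VJ.Pt f)) :
    mk f (t.map FreeAbelianGroup.of).sum = (t.map VJ.pt).sum := by
  rw [map_multiset_sum, Multiset.map_map]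
  rfl

variable [CharZero K]

theorem nu_mx (s : Sv g f) (p : VJ.Pt f) : Nu (VJ.mx p) (X - C p.1.1) :=
  s.nu_MI (monic_X_sub_C _) (pt_dvd p)

theorem nu_prod (s : Sv g f) (t : Multiset (VJ.Pt f)) : ∃ u, Nu (t.map VJ.mx).prod u ∧
    u.natDegree = t.card ∧
    br0 f (t.map FreeAbelianGroup.of).sum = Additive.ofMul (cx (t.map VJ.mx).prod) := by
  induction t using Multiset.induction_on with
  | empty => exact ⟨1, by simpa using nu_top, by simp, by simp [cx_top]⟩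
  | cons p t ih =>
    obtain ⟨u, a, b, c⟩ := ih
    simp only [Multiset.map_cons, Multiset.prod_cons, Multiset.sum_cons, Multiset.card_cons]
    refine ⟨_, nu_mul (nu_mx s p) a, ?_, ?_⟩
    · rw [(monic_X_sub_C _).natDegree_mul a.1, natDegree_X_sub_C, b, add_comm]
    · rw [map_add, c, cx_mul (nu_mx s p) a, ofMul_mul, br0, FreeAbelianGroup.lift_apply_of]

theorem prin_le (s : Sv g f) : VJ.Prin f ≤ (br0 f).ker := by
  refine (AddSubgroup.closure_le _).2 ?_
  rintro _ ⟨t, h, b, m, rfl⟩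
  obtain ⟨u, a, -, c⟩ := nu_prod s t
  have n : h ≠ 0 := by
    rintro rfl
    exact nu_ne a (m.trans (Ideal.span_singleton_eq_bot.2 rfl))
  show br0 f _ = 0
  rw [c, m, cx_span (bal_iff'.2 ⟨s.nr_ne n, b⟩), ofMul_one]

/-- the ideal class of a divisor class, as a homomorphism -/
def hom (s : Sv g f) : VJ.Cls f →+ Additive (Cx f) :=
  QuotientAddGroup.lift (VJ.Prin f) (br0 f) (prin_le s)

theorem hom_mk (s : Sv g f) (D : FreeAbelianGroup (VJ.Pt f)) : hom s (mk f D) = br0 f D := rfl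

theorem hom_pt (s : Sv g f) (p : VJ.Pt f) : hom s (VJ.pt p) = Additive.ofMul (cx (VJ.mx p)) :=
  FreeAbelianGroup.lift_apply_of _ _

theorem beta_eq (s : Sv g f) (x : VJ.Cls f) : beta K f x = Additive.toMul (hom s x) := by
  rw [beta, ← hom_mk s]
  congr 2
  exact Quotient.out_eq x

theorem pt_bar (s : Sv g f) (p : VJ.Pt f) : VJ.pt p + VJ.pt (bar p) = 0 := by
  have := mk_zero (f := f) (AddSubgroup.subset_closure ⟨{p, bar p}, ⟨X - C p.1.1, 0⟩,
    (bal_iff'.1 (bal_poly (X_sub_C_ne_zero _))).2, ?_, rfl⟩)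
  · rw [mk_sum] at this
    simpa using this
  · have e : VJ.mx (bar p) = MI f (X - C p.1.1) (-C p.1.2) := by
      rw [← C_neg]
      rfl
    simp only [Multiset.insert_eq_cons, Multiset.map_cons, Multiset.prod_cons,
      Multiset.map_singleton, Multiset.prod_singleton, e]
    exact MI_conj s.sf (pt_dvd p)

theorem eff (s : Sv g f) (x : VJ.Cls f) : ∃ t : Multiset (VJ.Pt f), x = (t.map VJ.pt).sum := by
  obtain ⟨D, rfl⟩ : ∃ D, mk f D = x := QuotientAddGroup.mk'_surjective _ x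
  induction D using FreeAbelianGroup.induction_on with
  | zero => exact ⟨0, by simp⟩
  | of p => exact ⟨{p}, by simp; rfl⟩
  | neg p _ =>
    refine ⟨{bar p}, ?_⟩
    rw [map_neg, Multiset.map_singleton, Multiset.sum_singleton]
    exact neg_eq_of_add_eq_zero_right (pt_bar s p)
  | add D E a b =>
    obtain ⟨t, a⟩ := a
    obtain ⟨r, b⟩ := b
    exact ⟨t + r, by rw [map_add, a, b, Multiset.map_add, Multiset.sum_add]⟩

theorem inj (s : Sv g f) : Function.Injective (hom s) := by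
  refine (injective_iff_map_eq_zero _).2 fun x e => ?_
  obtain ⟨t, rfl⟩ := eff s x
  obtain ⟨u, a, -, c⟩ := nu_prod s t
  rw [← mk_sum, hom_mk, c] at e
  obtain ⟨k, b, m⟩ := s.cx_one a e
  rw [← mk_sum]
  exact mk_zero (AddSubgroup.subset_closure ⟨t, k, (bal_iff'.1 b).2, m, rfl⟩)

theorem surj_aux (s : Sv g f) (V : K[X]) (r : Multiset K)
    (h : (r.map fun a => X - C a).prod ∣ f - V ^ 2) :
    ∃ x, hom s x = Additive.ofMul (cx (MI f (r.map fun a => X - C a).prod V)) := by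
  induction r using Multiset.induction_on with
  | empty => exact ⟨0, by simp [MI_one, cx_top]⟩
  | cons a r ih =>
    rw [Multiset.map_cons, Multiset.prod_cons] at h ⊢
    obtain ⟨x, e⟩ := ih ((dvd_mul_left _ _).trans h)
    have k : V.eval a ^ 2 = f.eval a := by
      have := dvd_iff_isRoot.1 ((dvd_mul_right _ _).trans h)
      simp only [IsRoot.def, eval_sub, eval_pow] at this
      exact (sub_eq_zero.1 this).symm
    refine ⟨VJ.pt ⟨(a, V.eval a), k⟩ + x, ?_⟩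
    rw [map_add, e, hom_pt, s.cx_MI_mul (monic_X_sub_C a)
      (monic_multiset_prod_of_monic _ _ fun a _ => monic_X_sub_C a) h, ofMul_mul,
      MI_congr (X_sub_C_dvd_sub_C_eval (p := V) (a := a))]
    rfl

theorem surj [IsAlgClosed K] (s : Sv g f) : Function.Surjective (hom s) := fun y => by
  obtain ⟨U, V, a, b, e⟩ := s.cx_surj (Additive.toMul y)
  have k := (IsAlgClosed.splits U).eq_prod_roots_of_monic a
  obtain ⟨x, h⟩ := surj_aux s V U.roots (k ▸ b)
  exact ⟨x, by rw [h, ← k, e, ofMul_toMul]⟩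

theorem par_sum (s : Sv g f) (t : Multiset (VJ.Pt f)) :
    par (Additive.toMul (hom s (t.map VJ.pt).sum)) = t.card := by
  obtain ⟨u, a, b, c⟩ := nu_prod s t
  rw [← mk_sum, hom_mk, c, toMul_ofMul, s.par_cx a, b]

theorem par_pt (s : Sv g f) (p : VJ.Pt f) : par (Additive.toMul (hom s (VJ.pt p))) = 1 := by
  simpa using par_sum s {p}

theorem deg0 (s : Sv g f) (x : VJ.Cls f) :
    x ∈ VJ.Deg0 f ↔ par (Additive.toMul (hom s x)) = 0 := by
  refine ⟨fun h => ?_, fun h => ?_⟩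
  · induction h using AddSubgroup.closure_induction with
    | mem x h =>
      obtain ⟨p, q, rfl⟩ := h
      rw [map_sub, toMul_sub, s.par_div, par_pt, par_pt, CharTwo.add_self_eq_zero]
    | zero => rw [map_zero, toMul_zero, s.par_one]
    | add x y _ _ a b => rw [map_add, toMul_add, s.par_mul, a, b, add_zero]
    | neg x _ a => rw [map_neg, toMul_neg, s.par_inv, a]
  · obtain ⟨t, rfl⟩ := eff s x
    rw [par_sum, ZMod.natCast_eq_zero_iff_even] at h
    rcases t.empty_or_exists_mem with rfl | ⟨p, -⟩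
    · simp
    have k : ∀ r : Multiset (VJ.Pt f), (r.map VJ.pt).sum - r.card • VJ.pt p ∈ VJ.Deg0 f := by
      intro r
      induction r using Multiset.induction_on with
      | empty => simp
      | cons q r ih =>
        rw [Multiset.map_cons, Multiset.sum_cons, Multiset.card_cons, succ_nsmul',
          add_sub_add_comm]
        exact add_mem (AddSubgroup.subset_closure ⟨q, p, rfl⟩) ih
    have two : VJ.pt p + VJ.pt p ∈ VJ.Deg0 f :=
      AddSubgroup.subset_closure ⟨p, bar p, by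
        rw [sub_eq_add_neg, neg_eq_of_add_eq_zero_left (pt_bar s p)]⟩
    obtain ⟨n, hn⟩ := h
    have := add_mem (k t) (nsmul_mem two n)
    rwa [hn, add_nsmul, nsmul_add, sub_add_cancel] at this

theorem nat [CharZero L] (s : Sv g f) (φ : K →+* L) (e : f.map φ = F) (x : VJ.Cls f) :
    Additive.toMul (hom (s.map φ e) (VJ.cmap φ e x)) = cmap φ e (Additive.toMul (hom s x)) := by
  obtain ⟨t, rfl⟩ := eff s x
  induction t using Multiset.induction_on with
  | empty => simp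
  | cons p t ih =>
    rw [Multiset.map_cons, Multiset.sum_cons, map_add, map_add, toMul_add, map_add, toMul_add,
      map_mul, ih, show VJ.cmap φ e (VJ.pt p) = VJ.pt (VJ.ptmap φ e p) from rfl, hom_pt, hom_pt,
      toMul_ofMul, toMul_ofMul, cmap_cx φ e (nu_mx s p), VJ.mx_map]

end Br

theorem br : BRStmt := ⟨Br.beta, fun K _ _ _ g f s => by
  refine ⟨fun x y => ?_, ?_, fun x => ?_, fun L _ _ _ φ F e x => ?_⟩
  · rw [Br.beta_eq s, Br.beta_eq s, Br.beta_eq s, map_add, toMul_add]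
  · rw [show Br.beta K f = Additive.toMul ∘ Br.hom s from funext (Br.beta_eq s)]
    exact Additive.toMul.bijective.comp ⟨Br.inj s, Br.surj s⟩
  · rw [Br.beta_eq s, Br.deg0 s]
  · rw [Br.beta_eq s, Br.beta_eq (s.map φ e), Br.nat s]⟩

end Pool.Agent.MP_a43263_nt.VD

end
end MrgPart0

-- ======== part 1: formerly Pool.Agent.MP_a43263_nt.VD.Core
section MrgPart1

/-! THEOREM V, part D: the main step of the descent. -/

set_option autoImplicit false

noncomputable section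

namespace Pool.Agent.MP_a43263_nt.VD

open Polynomial JC JC.Mum Filter Topology Sgn
open UV (Qb)
open VV (GQ HStmt Od Wv)

namespace Core

variable {K L : Type} [Field K] [CharZero K] [Field L] [CharZero L] {g : ℕ} {f : ℚ[X]}

/-- transport of functions -/
def tr (φ : K →+* L) (ρ : K → K) (y : L) : L := φ (ρ (Function.invFun φ y))

omit [CharZero K] [CharZero L] in
theorem tr_apply (φ : K →+* L) (ρ : K → K) (θ : K) : tr φ ρ (φ θ) = φ (ρ θ) := by
  rw [tr, Function.leftInverse_invFun φ.injective]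

theorem sv (s : Sv g f) (K : Type) [Field K] [CharZero K] : Sv g (fK f K) := s.map _ rfl

theorem root_surj [IsAlgClosed K] (s : Sv g f) (φ : K →+* L) {y : L} (h : (fK f L).eval y = 0) :
    ∃ θ, (fK f K).eval θ = 0 ∧ φ θ = y := by
  have : y ∈ ((fK f K).map φ).roots := by
    rw [fK_map, mem_roots (sv s L).ne]
    exact h
  rw [(IsAlgClosed.splits _).roots_map, Multiset.mem_map] at this
  obtain ⟨θ, h1, h2⟩ := this
  exact ⟨θ, isRoot_of_mem_roots h1, h2⟩

theorem z_map (za : ZAStmt) [IsAlgClosed K] (s : Sv g f) (φ : K →+* L) {x : Cx (fK f K)}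
    {D : Ideal (Rg (fK f K))} {ρ : K → K} (z : Z _ x D ρ) :
    Z _ (cmap φ (fK_map f φ) x) (D.map (rmap φ (fK_map f φ))) (tr φ ρ) :=
  (za K g _ (sv s K)).2.2.2.2.2.2.2 L φ _ _ _ _ _ _ z fun θ _ => tr_apply φ ρ θ

omit [CharZero K] [CharZero L] in
theorem ev_map (φ : K →+* L) (p : K[X]) (θ : K) : (p.map φ).eval (φ θ) = φ (p.eval θ) := by
  rw [eval_map, eval₂_at_apply]

omit [CharZero K] in
theorem cop_ne {F U : K[X]} (h : IsCoprime U F) {θ : K} (e : F.eval θ = 0) : U.eval θ ≠ 0 := by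
  obtain ⟨a, b, k⟩ := h
  intro c
  simpa [c, e] using congrArg (eval θ) k

omit [CharZero K] [CharZero L] in
theorem cop_map (φ : K →+* L) {F U : K[X]} {G : L[X]} (e : F.map φ = G) (h : IsCoprime U F) :
    IsCoprime (U.map φ) G := by
  subst e
  exact h.map (mapRingHom φ)

theorem ra {M : Type} [CommMonoid M] {A b B c P : M} (h : B * b = P) :
    A * b * (B * c) = A * c * P := by
  rw [← h]
  ac_rfl

theorem rb {M : Type} [CommMonoid M] {A b B c P : M} (h : A * c = P) :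
    A * b * (B * c) = B * b * P := by
  rw [← h]
  ac_rfl

/-- the local step -/
theorem loc (move : MOVEStmt) (rat : RATStmt) (za : ZAStmt) (s : Sv g f) {c : GQ → Cx (fK f Qb)}
    {U V : Qb[X]} (hU : U.Monic) (hd : U ∣ fK f Qb - V ^ 2) (cp : IsCoprime U (fK f Qb))
    (h2 : ∀ σ, c σ ^ 2 = act f σ (cx (MI _ U V)) / cx (MI _ U V)) {r : Qb → Qb}
    (hr : ∀ θ, r θ ^ 2 = U.eval θ) {e : GQ → Qb → ℤˣ} {ρ : GQ → Qb → Qb}
    (hz : ∀ σ : GQ, Z _ (c σ) (MI _ (U.map (σ : Qb →+* Qb)) (V.map (σ : Qb →+* Qb)) *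
      cj (MI _ U V)) (ρ σ))
    (he : ∀ (σ : GQ) θ, (fK f Qb).eval θ = 0 → ρ σ (σ θ) = (e σ (σ θ) : ℤ) * (r (σ θ) * σ (r θ)))
    (K : Type) [Field K] [CharZero K] (od : Od (fK f K)) (hK : CLoc f K c) :
    ∃ U1 V1 : K[X], U1.Monic ∧ (U1.natDegree : ZMod 2) = U.natDegree ∧ U1 ∣ fK f K - V1 ^ 2 ∧
      IsCoprime U1 (fK f K) ∧ ∃ t : Qb → AlgebraicClosure K,
      (∀ θ, (fK f Qb).eval θ = 0 → t θ ≠ 0 ∧ t θ ^ 2 = (U1.map (algebraMap K _)).eval (emb K θ)) ∧
      ∀ (σ : AlgebraicClosure K ≃ₐ[K] AlgebraicClosure K) (τ : GQ),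
        (∀ x, emb K (τ x) = σ (emb K x)) → ∃ b : ℤˣ, ∀ θ, (fK f Qb).eval θ = 0 →
          ((e τ (τ θ) : ℤ) : AlgebraicClosure K) * t (τ θ) = (b : ℤ) * σ (t θ) := by
  obtain ⟨R, hR⟩ := hK
  have sQ := sv s Qb
  have sK := sv s K
  have sb := sv s (AlgebraicClosure K)
  have eF := fK_map f (algebraMap K (AlgebraicClosure K))
  have eI := fK_map f (emb K)
  obtain ⟨z1, z2, z3, -, -, z6, z7, -⟩ := za _ g _ sb
  obtain ⟨y, hy⟩ := rat K g _ _ eF sK (cmap (emb K) eI (cx (MI _ U V)) / R ^ 2) (fun σ e' => by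
    obtain ⟨τ, hτ⟩ := exists_res K σ
    have k := congrArg (cmap (emb K) eI) (h2 τ)
    rw [map_pow, hR σ τ hτ, _root_.map_div, cmap_cmap _ _ ((emb K).comp (τ : Qb →+* Qb)) _ _
      (fK_map f _) fun _ => rfl, ← cmap_cmap (emb K) (σ : AlgebraicClosure K →+* _) _ eI e'
      (fK_map f _) fun x => (hτ x).symm, div_pow, div_eq_div_iff_div_eq_div] at k
    rw [_root_.map_div, map_pow, ← inv_inj, inv_div, inv_div]
    exact k) (Or.inr od)
  obtain ⟨U1, V1, a1, a2, a3, rfl⟩ := move K g _ sK y _ sK.ne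
  have hp := sK.par_map _ eF (cx (MI _ U1 V1))
  rw [hy, sb.par_div, sb.par_sq, add_zero, sQ.par_map, sQ.par_MI hU hd, sK.par_MI a1 a2] at hp
  refine ⟨U1, V1, a1, hp.symm, a2, a3, ?_⟩
  rw [sK.cmap_MI _ eF a1 a2, sQ.cmap_MI _ eI hU hd] at hy
  have n0 := sb.nu_MI (hU.map (emb K)) ((RatA.dvd_map _ eI).2 hd)
  have n1 := sb.nu_MI (a1.map (algebraMap K _)) ((RatA.dvd_map _ eF).2 a2)
  obtain ⟨π, hπ⟩ := z2 R _ _ (nu_mul n0 (nu_cj n1))
    (by rw [cx_mul n0 (nu_cj n1), cx_cj n1, hy, inv_div, mul_div_cancel])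
  have rt : ∀ {θ}, (fK f Qb).eval θ = 0 → (fK f (AlgebraicClosure K)).eval (emb K θ) = 0 :=
    fun h => by rw [root_map, h, map_zero]
  have r0 : ∀ {θ}, (fK f Qb).eval θ = 0 → emb K (r θ) ≠ 0 := fun h =>
    (_root_.map_ne_zero _).2 fun c => cop_ne cp h (by rw [← hr, c, zero_pow two_ne_zero])
  have t2 : ∀ θ, (fK f Qb).eval θ = 0 → (π (emb K θ) / emb K (r θ)) ^ 2 =
      (U1.map (algebraMap K _)).eval (emb K θ) := fun θ h => by
    rw [div_pow, (z1 _ _ _ _ hπ (nu_mul n0 (nu_cj n1))).2 _ (rt h), eval_mul, ev_map, ← hr, map_pow,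
      mul_div_cancel_left₀ _ (pow_ne_zero 2 (r0 h))]
  refine ⟨fun θ => π (emb K θ) / emb K (r θ), fun θ h => ⟨fun c => ?_, t2 θ h⟩, fun σ τ hτ => ?_⟩
  · have := (congrArg (· ^ 2) c).symm.trans (t2 θ h)
    rw [zero_pow two_ne_zero] at this
    exact cop_ne (cop_map _ eF a3) (rt h) this.symm
  · have e1 : (σ : AlgebraicClosure K →+* AlgebraicClosure K).comp (algebraMap K _) =
        algebraMap K _ := RingHom.ext σ.commutes
    have e2 : (σ : AlgebraicClosure K →+* AlgebraicClosure K).comp (emb K) =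
        (emb K).comp (τ : Qb →+* Qb) := RingHom.ext fun x => (hτ x).symm
    have k1 := z3 _ _ _ _ _ _ (z_map za s (σ : AlgebraicClosure K →+* AlgebraicClosure K) hπ)
      (z7 _ (hU.map (emb K)))
    have k2 := z3 _ _ _ _ _ _ (z_map za s (emb K) (hz τ)) hπ
    rw [hR σ τ hτ, div_mul_cancel] at k2
    rw [mul_one] at k1
    simp only [Ideal.map_mul, map_cj, RatA.map_MI, Polynomial.map_map, e1, e2] at k1 k2
    rw [ra n0.2] at k2
    obtain ⟨η, h1, h3⟩ := z6 _ _ _ _ k1 k2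
    refine ⟨sg η, fun θ h => ?_⟩
    have k3 := h3 _ (rt (root_act τ h))
    have k4 : tr (σ : AlgebraicClosure K →+* AlgebraicClosure K) π (emb K (τ θ)) =
        σ (π (emb K θ)) := by
      rw [hτ]
      exact tr_apply (σ : AlgebraicClosure K →+* AlgebraicClosure K) π _
    rw [tr_apply, k4, ev_map, he τ θ h, ← hr] at k3
    simp only [map_mul, map_intCast, map_pow] at k3
    rw [sg_val h1, map_div₀, ← hτ (r θ)]
    have := r0 (root_act τ h)
    have : emb K (τ (r θ)) ≠ 0 := by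
      rw [hτ]
      exact (_root_.map_ne_zero σ).2 (r0 h)
    field_simp
    refine mul_right_cancel₀ (r0 (root_act τ h)) ?_
    linear_combination k3

end Core

open Core in
theorem core (move : MOVEStmt) (rat : RATStmt) (half : HALFStmt) (za : ZAStmt) (zb : ZBStmt)
    (nrm : NRMStmt) (gal : GALStmt) (H : HStmt) : COREStmt := by
  intro g f s ng od sel c lc co lo Y h2
  have sQ := sv s Qb
  have em : ∀ (φ : ℚ →+* Qb) (p : ℚ[X]), p.map φ = fK p Qb := fun φ p => by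
    rw [RingHom.ext_rat φ (Rat.castHom Qb)]
  obtain ⟨z1, z2, z3, z4, z5, z6, z7, -⟩ := za _ g _ sQ
  obtain ⟨U, V, hU, hd, cp, rfl⟩ := move Qb g _ sQ Y _ sQ.ne
  have nu := sQ.nu_MI hU hd
  have nv : ∀ σ : GQ, Nu (MI _ (U.map (σ : Qb →+* Qb)) (V.map (σ : Qb →+* Qb))) _ := fun σ =>
    sQ.nu_MI (hU.map _) ((RatA.dvd_map _ (fK_map f _)).2 hd)
  obtain ⟨t, ht⟩ := IsAlgClosed.exists_root (fK f Qb) 
    (by rw [sQ.degree]; exact_mod_cast (by omega : 2 * g + 2 ≠ 0))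
  choose r hr using fun θ : Qb => IsAlgClosed.exists_pow_nat_eq (U.eval θ) two_pos
  have r0 : ∀ {θ}, (fK f Qb).eval θ = 0 → r θ ≠ 0 := fun h c =>
    cop_ne cp h (by rw [← hr, c, zero_pow two_ne_zero])
  have ex : ∀ (x : Cx (fK f Qb)) (A B : Qb[X]), ∃ ρ, (∃ ρ', Z _ x (MI _ A B * cj (MI _ U V)) ρ') →
      Z _ x (MI _ A B * cj (MI _ U V)) ρ := fun x A B => by
    by_cases c : ∃ ρ', Z _ x (MI _ A B * cj (MI _ U V)) ρ'
    · exact ⟨_, fun _ => c.choose_spec⟩
    · exact ⟨0, fun h => absurd h c⟩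
  choose pk hpk using ex
  obtain ⟨ρ, hρ⟩ : ∃ ρ : GQ → Qb → Qb, ∀ σ, ρ σ =
    pk (c σ) (U.map (σ : Qb →+* Qb)) (V.map (σ : Qb →+* Qb)) := ⟨_, fun _ => rfl⟩
  have hz : ∀ σ : GQ, Z _ (c σ) (MI _ (U.map (σ : Qb →+* Qb)) (V.map (σ : Qb →+* Qb)) *
      cj (MI _ U V)) (ρ σ) := fun σ => by
    rw [hρ]
    refine hpk _ _ _ (z2 _ _ _ (nu_mul (nv σ) (nu_cj nu)) ?_)
    rw [h2, cx_mul (nv σ) (nu_cj nu), cx_cj nu, div_eq_mul_inv, sQ.cmap_MI _ _ hU hd]
    rfl
  obtain ⟨e, hE⟩ : ∃ e : GQ → Qb → ℤˣ, ∀ σ θ, e σ θ = sg (ρ σ θ / (r θ * σ (r (σ⁻¹ θ)))) :=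
    ⟨_, fun _ _ => rfl⟩
  have n1 : ∀ (σ : GQ) {θ}, (fK f Qb).eval θ = 0 → r (σ θ) * σ (r θ) ≠ 0 := fun σ θ h =>
    mul_ne_zero (r0 (root_act σ h)) ((_root_.map_ne_zero σ).2 (r0 h))
  have ev : ∀ (σ : GQ) (p : Qb[X]) θ, (p.map (σ : Qb →+* Qb)).eval (σ θ) = σ (p.eval θ) :=
    fun σ => ev_map (σ : Qb →+* Qb)
  have ta : ∀ (σ : GQ) (z : Qb → Qb) θ, tr (σ : Qb →+* Qb) z (σ θ) = σ (z θ) :=
    fun σ => tr_apply (σ : Qb →+* Qb)
  have he : ∀ (σ : GQ) θ, (fK f Qb).eval θ = 0 →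
      ρ σ (σ θ) = (e σ (σ θ) : ℤ) * (r (σ θ) * σ (r θ)) := fun σ θ h => by
    rw [hE, show σ⁻¹ (σ θ) = θ from σ.symm_apply_apply θ, sg_val, div_mul_cancel₀ _ (n1 σ h)]
    rw [div_pow, (z1 _ _ _ _ (hz σ) (nu_mul (nv σ) (nu_cj nu))).2 _ (root_act σ h), eval_mul, ev,
      ← hr, ← hr, map_pow, ← mul_pow, mul_comm, div_self (pow_ne_zero 2 (n1 σ h))]
  have L := fun (p : ℕ) [Fact p.Prime] =>
    loc move rat za s hU hd cp h2 hr hz he ℚ_[p] (od p) (lo p)
  refine (sgn gal H s.ne ht e (fun θ h => ?_) (fun σ τ => ?_) fun p _ => ?_).elim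
    fun q ⟨b, hq⟩ => ?_
  · refine (IsLocallyConstant.iff_eventually_eq _).2 fun σ0 => ?_
    filter_upwards [lc.eventually_eq σ0, RatA.ev_map σ0 U, RatA.ev_map σ0 V, ev_inv σ0 θ,
      RatA.ev_apply σ0 (r (σ0⁻¹ θ))] with σ h1 h2 h3 h4 h5
    rw [hE, hE, hρ, hρ, h1, h2, h3, h4, h5]
  · have k1 := z3 _ _ _ _ _ _ (hz σ) (z_map za s (σ : Qb →+* Qb) (hz τ))
    have k2 := z3 _ _ _ _ _ _ (hz (σ * τ)) (z7 _ (hU.map (σ : Qb →+* Qb)))
    rw [mul_one, co] at k2
    have e1 : (σ : Qb →+* Qb).comp (τ : Qb →+* Qb) = (σ * τ : GQ) := rfl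
    simp only [Ideal.map_mul, map_cj, RatA.map_MI, Polynomial.map_map, e1] at k1
    rw [rb (nv σ).2] at k1
    obtain ⟨η, h1, h3⟩ := z6 _ _ _ _ k2 k1
    refine ⟨sg η, fun θ h => val_inj (K := Qb) ?_⟩
    obtain ⟨θ', rfl⟩ := τ.surjective θ
    have h' : (fK f Qb).eval θ' = 0 := by simpa using root_act τ⁻¹ h
    have k3 := h3 _ (root_act σ h)
    have k4 := he (σ * τ) θ' h'
    rw [AlgEquiv.mul_apply, AlgEquiv.mul_apply] at k4
    rw [ta, ev, he σ _ h, he τ _ h', k4, ← hr] at k3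
    simp only [map_mul, map_intCast, map_pow] at k3
    simp only [Units.val_mul, Int.cast_mul, sg_val h1]
    refine mul_right_cancel₀ (mul_ne_zero (n1 σ h) ((_root_.map_ne_zero σ).2 (n1 τ h'))) ?_
    rw [map_mul]
    linear_combination k3
  · obtain ⟨_, _, -, -, -, -, u, h1, h3⟩ := L p
    exact ⟨u, fun θ h => (h1 θ h).1, h3⟩
  obtain ⟨-, G⟩ := gal.1 ℚ
  obtain ⟨-, g2, g3, -⟩ := G f _ (em _ f) s.sep
  have q2 : ∀ (σ : GQ) θ, (fK f Qb).eval θ = 0 → σ (q θ ^ 2) = q (σ θ) ^ 2 := fun σ θ h => by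
    rw [map_pow, (hq θ h).2, mul_pow, val_sq, one_mul]
  obtain ⟨δ, hδ⟩ := g3 (fun θ => q θ ^ 2) q2
  rw [em] at hδ
  have cδ : IsCoprime δ f := (g2 δ).2 fun θ h => by
    rw [em, hδ θ h]
    exact pow_ne_zero 2 (hq θ h).1
  have W : ∀ (p : ℕ) [Fact p.Prime], Wv (fK f ℚ_[p]) (fK δ ℚ_[p]) U.natDegree := fun p _ => by
    obtain ⟨U1, V1, a1, a2, a3, a4, u, h1, h3⟩ := L p
    obtain ⟨-, G⟩ := gal.1 ℚ_[p]
    obtain ⟨g1, -, -, g4⟩ := G _ _ (fK_map f _) (sv s _).sep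
    have iv := Function.leftInverse_invFun (emb ℚ_[p]).injective
    obtain ⟨a, P, a0, hP⟩ := g4 (fun y => emb ℚ_[p] (q (Function.invFun (emb ℚ_[p]) y)) *
      u (Function.invFun (emb ℚ_[p]) y)) fun σ => by
        obtain ⟨τ, hτ⟩ := exists_res ℚ_[p] σ
        obtain ⟨b', hb⟩ := h3 σ τ hτ
        refine ⟨((b τ * b' : ℤˣ) : ℤ), val_sq _, fun y hy => ?_⟩
        obtain ⟨θ, h, rfl⟩ := root_surj s (emb ℚ_[p]) hy
        have k := hb θ h
        rw [← hτ, iv, iv, map_mul, ← hτ, (hq θ h).2]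
        simp only [Units.val_mul, Int.cast_mul, map_mul, map_intCast]
        linear_combination (-((b τ : ℤ) * (e τ (τ θ) : ℤ) * emb ℚ_[p] (q (τ θ)) * (b' : ℤ))) * k +
          ((b τ : ℤ) * emb ℚ_[p] (q (τ θ)) * (b' : ℤ) * u (τ θ)) *
            val_sq (K := AlgebraicClosure ℚ_[p]) (e τ (τ θ)) -
          ((b τ : ℤ) * (e τ (τ θ) : ℤ) * emb ℚ_[p] (q (τ θ)) * σ (u θ)) *
            val_sq (K := AlgebraicClosure ℚ_[p]) b'
    refine ⟨cop_map _ rfl cδ, U1, V1, C a * P, a, a1, a2, a3, a4, a0,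
      g1 _ fun y hy => ?_⟩
    have k := hP y hy
    obtain ⟨θ, h, rfl⟩ := root_surj s (emb ℚ_[p]) hy
    rw [iv, mul_pow, (h1 θ h).2, ← map_pow, ← hδ θ h, ← root_map] at k
    simp only [Polynomial.map_sub, Polynomial.map_mul, Polynomial.map_pow, map_C, fK_map, eval_sub,
      eval_mul, eval_pow, eval_C]
    linear_combination (algebraMap ℚ_[p] (AlgebraicClosure ℚ_[p]) a) * k
  have p0 : (U.natDegree : ZMod 2) = 0 := by
    by_contra c
    exact nrm g f δ s ng (by rwa [(by decide : ∀ x : ZMod 2, x ≠ 0 → x = 1) _ c] at W)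
  obtain ⟨a, z, a0, w, hw⟩ := sel δ (p0 ▸ W)
  obtain ⟨γ, hγ⟩ := IsAlgClosed.exists_pow_nat_eq (a : Qb) two_pos
  have e1 : ∀ θ, (fK f Qb).eval θ = 0 → q θ ^ 2 = (γ * (fK z Qb).eval θ) ^ 2 := fun θ h => by
    have := congrArg (fun p => (fK p Qb).eval θ) hw
    simp only [fK, Polynomial.map_sub, Polynomial.map_mul, Polynomial.map_pow, eval_sub, eval_mul,
      eval_pow, hδ θ h, h, zero_mul, map_C, eval_C] at this
    rw [mul_pow, hγ]
    exact sub_eq_zero.1 this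
  have n2 : ∀ {θ}, (fK f Qb).eval θ = 0 → γ * (fK z Qb).eval θ ≠ 0 := fun h c =>
    pow_ne_zero 2 (hq _ h).1 (by rw [e1 _ h, c, zero_pow two_ne_zero])
  obtain ⟨R, hR⟩ := half Qb g _ sQ (cx (MI _ U V)) (by rw [sQ.par_MI hU hd, p0])
  obtain ⟨π, hπ⟩ := z2 R _ _ nu hR
  have e2 := (z1 _ _ _ _ hπ nu).2
  obtain ⟨T, hT⟩ := (zb Qb g _ sQ).2 (fun θ => q θ / (γ * (fK z Qb).eval θ) * (r θ / π θ))
    fun θ h => by
      rw [mul_pow, div_pow, div_pow, e1 θ h, hr, e2 θ h, div_self (pow_ne_zero 2 (n2 h)),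
        div_self (cop_ne cp h), one_mul]
  have k0 := z5 _ _ _ (fun θ => q θ / (γ * (fK z Qb).eval θ) * r θ) 1 (z3 _ _ _ _ _ _ hπ hT)
    (one_pow 2) fun θ h => by
      have : π θ ≠ 0 := fun c => cop_ne cp h (by rw [← e2 θ h, c, zero_pow two_ne_zero])
      field_simp
  rw [Ideal.mul_top] at k0
  refine ⟨R * T, (z1 _ _ _ _ k0 nu).1, fun σ => ?_⟩
  have k1 := z3 _ _ _ _ _ _ (z_map za s (σ : Qb →+* Qb) k0) (z4 _ _ _ k0)
  rw [RatA.map_MI] at k1
  have γ0 : γ ≠ 0 := left_ne_zero_of_mul (n2 ht)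
  have e3 : σ γ ^ 2 = γ ^ 2 := by rw [← map_pow, hγ, map_ratCast]
  refine (zb Qb g _ sQ).1 _ _ _ _ _ (nu_mul (nv σ) (nu_cj nu)) 
    ((cop_map _ (fK_map f (σ : Qb →+* Qb)) cp).mul_left cp) (hz σ) ?_
  rw [div_eq_mul_inv]
  refine z5 _ _ _ _ ((b σ : ℤ) * (σ γ / γ)) k1
    (by rw [mul_pow, val_sq, div_pow, e3, div_self (pow_ne_zero 2 γ0), one_mul]) fun θ h => ?_
  obtain ⟨θ, rfl⟩ := σ.surjective θ
  have h' : (fK f Qb).eval θ = 0 := by simpa using root_act σ⁻¹ h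
  have k2 := e1 _ h
  have k3 := root_map (σ : Qb →+* Qb) z θ
  have k4 := n2 h
  rw [RingHom.coe_coe] at k3
  rw [ta, he σ θ h', map_mul, map_div₀, map_mul, ← k3, (hq θ h').2]
  have : σ γ ≠ 0 := (_root_.map_ne_zero σ).2 γ0
  have := right_ne_zero_of_mul k4
  simp only [Units.val_mul, Int.cast_mul]
  field_simp
  linear_combination (-(r (σ θ) * σ (r θ))) * k2 -
    (r (σ θ) * σ (r θ) * q (σ θ) ^ 2) * val_sq (K := Qb) (b σ)

end Pool.Agent.MP_a43263_nt.VD

end
end MrgPart1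

-- ======== part 2: formerly Pool.Agent.MP_a43263_nt.VD.Move
section MrgPart2

/-! THEOREM V, part D: the moving lemma. -/

set_option autoImplicit false

namespace Pool.Agent.MP_a43263_nt.VD

open Polynomial JC JC.Mum JM.Move

theorem move : MOVEStmt := by
  intro K _ _ g f s x R R0
  obtain ⟨U, V, hU, hd, hx⟩ := s.cx_surj x⁻¹
  set N := V.natDegree + g + 2 with hN
  have cg : ∀ P : K[X], U ∣ f - (V + U * P) ^ 2 := fun P => by
    rw [show f - (V + U * P) ^ 2 = f - V ^ 2 - U * (2 * V * P + U * P ^ 2) by ring]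
    exact dvd_sub hd (dvd_mul_right _ _)
  obtain ⟨w, hw⟩ := cg (X ^ N)
  have sq : Squarefree (U * w + (V + U * X ^ N) ^ 2) := by
    rw [← hw, sub_add_cancel]
    exact s.sf
  obtain ⟨l, hl⟩ := (pencil sq R R0).exists_notMem
  rw [Set.mem_ofPred_eq, not_not] at hl
  set wl := w - C (2 * l) * (V + U * X ^ N) - C (l ^ 2) * U with hwl
  set V2 := V + U * (X ^ N + C l) with hV2
  have e : f - V2 ^ 2 = U * wl := by
    rw [hwl, hV2, C_mul, C_pow, map_ofNat]
    linear_combination hw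
  have m1 : (X ^ N + C l : K[X]).Monic := monic_X_pow_add_C l (by omega)
  have d1 : (U * (X ^ N + C l)).natDegree = U.natDegree + N := by
    rw [hU.natDegree_mul m1, natDegree_X_pow_add_C]
  have d2 : V2.natDegree = U.natDegree + N := by
    rw [hV2, natDegree_add_eq_right_of_natDegree_lt (by omega), d1]
  have n2 : V2 ≠ 0 := fun h => by
    rw [h, natDegree_zero] at d2
    omega
  have d3 : f.degree < (V2 ^ 2).degree := by
    rw [s.degree, deg_sq n2, d2]
    exact Nat.cast_lt.2 (by omega)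
  have d4 := degree_sub_eq_left_of_degree_lt d3
  have n3 : V2 ^ 2 - f ≠ 0 := fun h => by
    rw [h, degree_zero, eq_comm, degree_eq_bot] at d4
    exact pow_ne_zero 2 n2 d4
  have b : Bal (⟨-V2, 1⟩ : Rg f) := by
    simp only [Bal, neg_sq, one_pow, mul_one]
    exact ⟨n3, d4.ge⟩
  have n4 : wl ≠ 0 := fun h => n3 (by rw [← neg_sub, e, h, mul_zero, neg_zero])
  obtain ⟨u, hu, as⟩ := exists_monic n4
  have as' : Associated (U * u) (f - V2 ^ 2) := e ▸ as.symm.mul_left U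
  refine ⟨u, V2, hu, (dvd_mul_left u U).trans as'.dvd, hl.of_isCoprime_of_dvd_left as.symm.dvd, ?_⟩
  have k := s.cx_MI_mul hU hu as'.dvd
  rw [MI_assoc as', MI_norm, cx_span b, MI_congr (U := U) (V := V2) (V' := V) (by simp [hV2]),
    hx] at k
  exact (inv_mul_eq_one.1 k.symm).symm

end Pool.Agent.MP_a43263_nt.VD

end MrgPart2

-- ======== part 3: formerly Pool.Agent.MP_a43263_nt.VD.Nrm
section MrgPart3

/-! THEOREM V, part D: the sign of the norm. -/

set_option autoImplicit false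

namespace Pool.Agent.MP_a43263_nt.VD

open Polynomial JC
open UV (Nm)
open VV (Wv Neg mo)

namespace Nrm

section ring
variable {K : Type} [Field K] {f : K[X]}

theorem nm_eq (hf : f.Monic) (δ : K[X]) {n : ℕ} (hn : δ.natDegree ≤ n) :
    Nm f δ = resultant f δ f.natDegree n := by
  obtain ⟨k, rfl⟩ := Nat.exists_eq_add_of_le hn
  rw [resultant_add_right_deg _ _ _ _ _ le_rfl, hf.coeff_natDegree, one_pow, one_mul, Nm]

theorem nm_congr (hf : f.Monic) {δ δ' : K[X]} (h : f ∣ δ - δ') : Nm f δ = Nm f δ' := by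
  obtain ⟨w, hw⟩ := h
  rw [nm_eq hf δ (n := δ.natDegree + δ'.natDegree + (w.natDegree + f.natDegree)) (by omega),
    nm_eq hf δ' (n := δ.natDegree + δ'.natDegree + (w.natDegree + f.natDegree)) (by omega),
    ← resultant_add_mul_right f δ' w _ _ (by omega) le_rfl, ← hw, add_sub_cancel]

theorem nm_mul (hf : f.Monic) (δ δ' : K[X]) : Nm f (δ * δ') = Nm f δ * Nm f δ' := by
  rw [nm_eq hf _ natDegree_mul_le, resultant_mul_right _ _ _ _ le_rfl, Nm, Nm]

theorem nm_C (c : K) : Nm f (C c) = c ^ f.natDegree := by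
  rw [Nm, natDegree_C, resultant_C_zero_right]

theorem nm_ne (hf : f.Monic) {δ : K[X]} (h : IsCoprime δ f) : Nm f δ ≠ 0 :=
  ((isUnit_resultant_iff_isCoprime hf).2 h.symm).ne_zero

theorem nm_map {L : Type} [Field L] (φ : K →+* L) (δ : K[X]) :
    Nm (f.map φ) (δ.map φ) = φ (Nm f δ) := by
  rw [Nm, natDegree_map, natDegree_map, resultant_map_map, Nm]

theorem nm_left (hf : f.Monic) {f' : K[X]} (hf' : f'.Monic) (δ : K[X]) :
    Nm (f * f') δ = Nm f δ * Nm f' δ := by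
  rw [Nm, hf.natDegree_mul hf', resultant_mul_left _ _ _ _ le_rfl, Nm, Nm]

theorem mo_monic (h : f ≠ 0) : (mo f).Monic := by
  rw [mo, mul_comm]
  exact monic_mul_leadingCoeff_inv h

theorem mo_eq (h : f ≠ 0) : f = C f.leadingCoeff * mo f := by
  rw [mo, ← mul_assoc, ← C_mul, mul_inv_cancel₀ (leadingCoeff_ne_zero.2 h), C_1, one_mul]

theorem mo_deg (h : f ≠ 0) : (mo f).natDegree = f.natDegree :=
  natDegree_C_mul (inv_ne_zero (leadingCoeff_ne_zero.2 h))

theorem mo_map {L : Type} [Field L] (φ : K →+* L) : mo (f.map φ) = (mo f).map φ := by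
  simp [mo]

/-- the norm of a class of odd degree is the leading coefficient up to squares -/
theorem sq_of {g : ℕ} {δ : K[X]} (h : Sv g f) (w : Wv f δ 1) :
    Nm (mo f) δ ≠ 0 ∧ IsSquare (f.leadingCoeff * Nm (mo f) δ) := by
  obtain ⟨h0, U, V, s, r, h1, h2, h3, h4, h5, h6⟩ := w
  have m := mo_monic h.ne
  have dv : mo f ∣ f := Dvd.intro_left _ (mo_eq h.ne).symm
  refine ⟨nm_ne m (h0.of_isCoprime_of_dvd_right dv), ?_⟩
  obtain ⟨j, hj⟩ := ZMod.natCast_eq_one_iff_odd.1 h2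
  have a := nm_congr h1 h3
  have b := nm_congr m (dv.trans h6)
  have d : Nm (mo f) U = (-1) ^ ((mo f).natDegree * U.natDegree) * Nm U (mo f) :=
    resultant_comm _ _ _ _
  have z := nm_ne m (h4.of_isCoprime_of_dvd_right dv)
  have dg := (mo_deg h.ne).trans h.deg
  rw [dg, show (2 * g + 2) * U.natDegree = 2 * ((g + 1) * U.natDegree) by ring, pow_mul,
    neg_one_sq, one_pow, one_mul] at d
  rw [nm_mul m, nm_mul m, nm_C, sq s, nm_mul m, dg, d] at b
  conv_lhs at a => rw [mo_eq h.ne, nm_mul h1, nm_C, hj]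
  rw [sq V, nm_mul h1] at a
  have v0 : Nm U V ≠ 0 := left_ne_zero_of_mul
    (a ▸ mul_ne_zero (pow_ne_zero _ (leadingCoeff_ne_zero.2 h.ne)) (d ▸ z))
  refine ⟨f.leadingCoeff ^ (j + 1) * Nm (mo f) s / (r ^ (g + 1) * Nm U V), ?_⟩
  rw [div_mul_div_comm, eq_div_iff (by positivity)]
  linear_combination f.leadingCoeff ^ (2 * j + 2) * b -
    f.leadingCoeff * Nm (mo f) δ * r ^ (2 * g + 2) * a

end ring

/-- norms from a product of copies of the complex numbers are not negative -/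
theorem nm_nonneg (δ : ℝ[X]) : ∀ (n : ℕ) (m : ℝ[X]), m.natDegree = n → m.Monic →
    (∀ x, m.eval x ≠ 0) → 0 ≤ Nm m δ := by
  intro n
  induction n using Nat.strong_induction_on with
  | h n ih =>
    intro m hn hm hr
    by_cases h1 : m = 1
    · simp [h1, Nm]
    obtain ⟨z, hz⟩ := IsAlgClosed.exists_aeval_eq_zero ℂ m
      (hm.degree_pos.2 h1).ne'
    have zi : z.im ≠ 0 := fun e => hr z.re (by
      have e1 : z = algebraMap ℝ ℂ z.re := Complex.ext rfl e
      rw [e1, aeval_algebraMap_apply, map_eq_zero] at hz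
      exact hz)
    have hi : IsIntegral ℝ z := Algebra.IsIntegral.isIntegral z
    obtain ⟨m', e⟩ := minpoly.dvd ℝ z hz
    have hq := minpoly.monic hi
    have hm' : m'.Monic := hq.of_mul_monic_left (e ▸ hm)
    obtain ⟨w, hw⟩ := IsAlgClosed.exists_eq_mul_self (aeval z δ)
    have hs : aeval z (C (w.im / z.im) * X + C (w.re - w.im / z.im * z.re)) = w := by
      apply Complex.ext <;> simp [zi]
    have k : minpoly ℝ z ∣ δ - (C (w.im / z.im) * X + C (w.re - w.im / z.im * z.re)) *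
        (C (w.im / z.im) * X + C (w.re - w.im / z.im * z.re)) :=
      minpoly.dvd ℝ z (by rw [map_sub, map_mul, hs, hw, sub_self])
    rw [e, nm_left hq hm', nm_congr hq k, nm_mul hq]
    refine mul_nonneg (mul_self_nonneg _) (ih _ ?_ m' rfl hm' fun x hx => hr x ?_)
    · have := minpoly.natDegree_pos hi
      rw [← hn, e, hq.natDegree_mul hm']
      omega
    · rw [e, eval_mul, hx, mul_zero]

theorem three : ∀ u : ZMod 3, u * u ≠ -1 := by decide

/-- a negative rational number is not a square at all primes -/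
theorem neg_not {x : ℚ} (hx : x < 0) : ¬∀ (p : ℕ) [Fact p.Prime], IsSquare (x : ℚ_[p]) := by
  intro h
  obtain ⟨t, s, e, hs⟩ := Nat.sq_mul_squarefree (x.num.natAbs * x.den)
  have n0 : x.num < 0 := Rat.num_neg.2 hx
  have s0 : (s : ℚ) ≠ 0 := by
    rintro c
    rw [Nat.cast_eq_zero.1 c] at e
    have := x.den_pos
    have : 0 < x.num.natAbs * x.den := Nat.mul_pos (by omega) this
    omega
  have e1 : x * (x.den / s) ^ 2 = -t := by
    have e2 : (s : ℚ) ^ 2 * t = -x.num * x.den := by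
      rw [← Int.cast_neg, show -x.num = x.num.natAbs by omega]
      exact_mod_cast e
    rw [div_pow, mul_div_assoc', div_eq_iff (pow_ne_zero 2 s0), sq (x.den : ℚ), ← mul_assoc,
      Rat.mul_den_eq_num]
    linear_combination e2
  have key : ∀ (p : ℕ) [Fact p.Prime], ∃ y : ℤ_[p], y * y = -t := fun p _ => by
    obtain ⟨y, hy⟩ := h p
    have e3 : (y * (x.den / s)) * (y * (x.den / s)) = ((-t : ℤ) : ℚ_[p]) := by
      have := congrArg (Rat.cast : ℚ → ℚ_[p]) e1
      push_cast at this ⊢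
      rw [← this, hy]
      ring
    refine ⟨⟨y * (x.den / s), ?_⟩, Subtype.ext (by simpa using e3)⟩
    have := Padic.norm_int_le_one (p := p) (-t)
    rw [← e3, norm_mul] at this
    nlinarith [norm_nonneg (y * (x.den / s))]
  by_cases t1 : t = 1
  · have : Fact (Nat.Prime 3) := ⟨Nat.prime_three⟩
    obtain ⟨y, hy⟩ := key 3
    have := congrArg PadicInt.toZMod hy
    rw [t1, map_mul, map_neg, Nat.cast_one, map_one] at this
    exact three _ this
  · obtain ⟨p, hp, hd⟩ := Nat.exists_prime_and_dvd t1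
    have := Fact.mk hp
    obtain ⟨y, hy⟩ := key p
    have d1 : (p : ℤ_[p]) ∣ y := (PadicInt.prime_p.dvd_or_dvd
      (hy ▸ (Nat.cast_dvd_cast hd).neg_right)).elim id id
    have d2 : (p : ℤ_[p]) ^ 2 ∣ ((t : ℤ) : ℤ_[p]) := by
      rw [sq, Int.cast_natCast, ← dvd_neg, ← hy]
      exact mul_dvd_mul d1 d1
    rw [PadicInt.pow_p_dvd_int_iff, sq] at d2
    exact hp.prime.not_isUnit (hs p (by exact_mod_cast d2))

end Nrm

open Nrm in
theorem nrm : NRMStmt := by
  intro g f δ s hn h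
  have key : ∀ (p : ℕ) [Fact p.Prime], Nm (mo f) δ ≠ 0 ∧
      IsSquare ((f.leadingCoeff * Nm (mo f) δ : ℚ) : ℚ_[p]) := fun p _ => by
    have := sq_of (s.map (Rat.castHom ℚ_[p]) rfl) (h p)
    rw [mo_map, nm_map, leadingCoeff_map, ← map_mul, _root_.map_ne_zero] at this
    exact this
  have sR : Sv g (fK f ℝ) := s.map (Rat.castHom ℝ) rfl
  have l0 : f.leadingCoeff < 0 := by
    by_contra c
    have := (tendsto_atTop_of_leadingCoeff_nonneg (fK f ℝ)
      (by rw [sR.degree]; exact_mod_cast by omega)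
      (by rw [leadingCoeff_map]; exact Rat.cast_nonneg.2 (not_lt.1 c))).eventually_ge_atTop 0
    obtain ⟨x, hx⟩ := this.exists
    exact absurd (hn x) (not_lt.2 hx)
  have n0 : 0 ≤ Nm (mo f) δ := by
    have := nm_nonneg (fK δ ℝ) _ (mo (fK f ℝ)) rfl (mo_monic sR.ne) fun x hx =>
      (hn x).ne (by rw [mo_eq sR.ne, eval_mul, hx, mul_zero])
    rw [mo_map, nm_map] at this
    exact Rat.cast_nonneg.1 this
  have : Fact (Nat.Prime 2) := ⟨Nat.prime_two⟩
  exact neg_not (mul_neg_of_neg_of_pos l0 (lt_of_le_of_ne n0 (key 2).1.symm))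
    fun p _ => (key p).2

end Pool.Agent.MP_a43263_nt.VD

end MrgPart3

-- ======== part 4: formerly Pool.Agent.MP_a43263_nt.VD.Rat
section MrgPart4

/-! THEOREM V, part D: invariant classes are rational. -/

set_option autoImplicit false

noncomputable section

namespace Pool.Agent.MP_a43263_nt.VD

open Polynomial JC JC.Mum
open VV (Od)

namespace RatB

variable {K L : Type} [Field K] [Field L] {g : ℕ} {f : K[X]} {F : L[X]}

/-- a nonzero element of least pole order -/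
def Min (I : Ideal (Rg f)) (v : Rg f) : Prop :=
  v ∈ I ∧ v ≠ 0 ∧ ∀ w ∈ I, w ≠ 0 → dd v ≤ dd w

theorem dd_ne (s : Sv g f) {v : Rg f} (h : v ≠ 0) : dd v ≠ ⊥ := by
  obtain ⟨m, hm⟩ := s.dd_even h
  rw [hm]; exact WithBot.coe_ne_bot

theorem dd_map (φ : K →+* L) (e : f.map φ = F) (h : Rg f) : dd (rmap φ e h) = dd h := by
  rw [dd, dd, show (rmap φ e h).re ^ 2 = (h.re ^ 2).map φ by simp [rmap],
    show F * (rmap φ e h).im ^ 2 = (f * h.im ^ 2).map φ by simp [rmap, ← e], degree_map, degree_map]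

theorem dd_neg (h : Rg f) : dd (-h) = dd h := by simp [dd]

/-- a polynomial factor that does not raise the pole order is constant -/
theorem const_of (s : Sv g f) {a : K[X]} {w : Rg f} (hw : w ≠ 0) (h : dd (⟨a, 0⟩ * w) ≤ dd w) :
    a.natDegree = 0 := by
  by_cases a0 : a = 0
  · simp [a0]
  obtain ⟨m, hm⟩ := s.dd_even hw
  rw [dd_poly_mul, deg_sq a0, hm] at h
  have : 2 * a.natDegree + 2 * m ≤ 2 * m := by exact_mod_cast h
  omega

theorem small (s : Sv g f) {U : K[X]} (V : K[X]) (hU : U.Monic) {m : ℕ}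
    (hm : U.natDegree + g = 2 * m) : ∃ v ∈ MI f U V, v ≠ 0 ∧ dd v ≤ (2 * m : ℕ) := by
  have fd : ∀ n, FiniteDimensional K (degreeLT K n) := fun n =>
    (degreeLTEquiv K n).symm.finiteDimensional
  have := (AdjoinRoot.powerBasis' hU).finite
  obtain ⟨⟨⟨a, ha⟩, ⟨b, hb⟩⟩, h1, h0⟩ := Submodule.exists_mem_ne_zero_of_ne_bot
    (LinearMap.ker_ne_bot_of_finrank_lt (f := (AdjoinRoot.mkₐ U).toLinearMap ∘ₗ
      LinearMap.coprod (degreeLT K (m + 1)).subtype
        (LinearMap.mulRight K V ∘ₗ (degreeLT K (m - g)).subtype)) (by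
      rw [(AdjoinRoot.powerBasis' hU).finrank, AdjoinRoot.powerBasis'_dim, Module.finrank_prod,
        Qs.rk, Qs.rk]
      omega))
  refine ⟨⟨a, b⟩, mem_MI_of (AdjoinRoot.mk_eq_zero.1 h1), fun e => h0 ?_, max_le ?_ ?_⟩
  · obtain rfl : a = 0 := congrArg QuadraticAlgebra.re e
    obtain rfl : b = 0 := congrArg QuadraticAlgebra.im e
    rfl
  · by_cases c : a = 0
    · simp [c]
    · have := (natDegree_lt_iff_degree_lt c).2 (mem_degreeLT.1 ha)
      rw [deg_sq c]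
      exact Nat.cast_le.2 (by omega)
  · by_cases c : b = 0
    · simp [c]
    · have := (natDegree_lt_iff_degree_lt c).2 (mem_degreeLT.1 hb)
      rw [s.deg_fsq c]
      exact Nat.cast_le.2 (by omega)

theorem ex_min {I : Ideal (Rg f)} {v : Rg f} (h : v ∈ I) (h0 : v ≠ 0) : ∃ w, Min I w := by
  obtain ⟨w, hw, k⟩ := (InvImage.wf (dd (f := f)) wellFounded_lt).has_min {v | v ∈ I ∧ v ≠ 0}
    ⟨v, h, h0⟩
  exact ⟨w, hw.1, hw.2, fun u a b => not_lt.1 (k u ⟨a, b⟩)⟩

theorem uniq (s : Sv g f) {I : Ideal (Rg f)} {U : K[X]} (a : Nu I U) {v v' : Rg f} (h : Min I v)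
    (hs : dd v ≤ (U.natDegree + g : ℕ)) (h1 : v' ∈ I) (h2 : dd v' ≤ dd v) :
    ∃ c : K, v' = ⟨C c, 0⟩ * v := by
  have := s.dom
  have k : v' * star v ∈ PI f U := a.2 ▸ Ideal.mul_mem_mul h1 (Ideal.mem_map_of_mem _ h.1)
  obtain ⟨⟨p, q⟩, hz⟩ := Ideal.mem_span_singleton.1 k
  obtain rfl : q = 0 := by
    by_contra c
    have e1 := dd_mul_le v' (star v)
    rw [hz, dd_poly_mul, dd_star, deg_sq a.1.ne_zero] at e1
    have e2 : (f * q ^ 2).degree ≤ dd (⟨p, q⟩ : Rg f) := le_max_right _ _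
    rw [s.deg_fsq c] at e2
    have e3 := ((add_le_add le_rfl e2).trans e1).trans (add_le_add (h2.trans hs) hs)
    have : 2 * U.natDegree + 2 * (g + 1 + q.natDegree) ≤ U.natDegree + g + (U.natDegree + g) := by
      exact_mod_cast e3
    omega
  obtain ⟨A, B, D, cop, e1, e2⟩ :=
    UniqueFactorizationMonoid.exists_reduced_factors (nr v) (s.nr_ne h.2.1) (U * p)
  obtain ⟨α, β, bz⟩ := cop.isCoprime
  have D0 : D ≠ 0 := left_ne_zero_of_mul (e1 ▸ s.nr_ne h.2.1)
  have e3 : (⟨A, 0⟩ : Rg f) * v' = ⟨B, 0⟩ * v := by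
    refine mul_left_cancel₀ (c_ne D0) ?_
    rw [← mul_assoc, ← mul_assoc, c_mul, c_mul, e1, e2, ← mul_star, ← c_mul, ← hz]
    ring
  have bz' : (⟨α, 0⟩ : Rg f) * ⟨A, 0⟩ + ⟨β, 0⟩ * ⟨B, 0⟩ = 1 := by
    rw [c_mul, c_mul]
    ext1
    · simpa [QuadraticAlgebra.re_one] using bz
    · simp [QuadraticAlgebra.im_one]
  set w : Rg f := ⟨α, 0⟩ * v + ⟨β, 0⟩ * v' with hw
  have wI : w ∈ I := I.add_mem (I.mul_mem_left _ h.1) (I.mul_mem_left _ h1)
  have e4 : v = ⟨A, 0⟩ * w := by linear_combination (-v) * bz' - (⟨β, 0⟩ : Rg f) * e3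
  have e5 : v' = ⟨B, 0⟩ * w := by linear_combination (-v') * bz' + (⟨α, 0⟩ : Rg f) * e3
  have w0 : w ≠ 0 := right_ne_zero_of_mul (e4 ▸ h.2.1)
  have m := h.2.2 w wI w0
  obtain ⟨x, rfl⟩ := natDegree_eq_zero.1 (const_of s w0 (e4 ▸ m))
  obtain ⟨y, rfl⟩ := natDegree_eq_zero.1 (const_of s w0 (e5 ▸ h2.trans m))
  have x0 : x ≠ 0 := by
    rintro rfl
    exact h.2.1 (by rw [e4]; ext1 <;> simp)
  refine ⟨y / x, ?_⟩
  rw [e4, ← mul_assoc, c_mul, ← C_mul, div_mul_cancel₀ _ x0]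
  exact e5

theorem canon (s : Sv g f) {I I' E E' : Ideal (Rg f)} {U U' : K[X]} (a : Nu I U) (a' : Nu I' U')
    (e : cx I = cx I') {v w : Rg f} (hv : Min I v) (hw : Min I' w)
    (hs : dd w ≤ (U'.natDegree + g : ℕ)) (b : I * E = Ideal.span {v})
    (b' : I' * E' = Ideal.span {w}) :
    E = E' ∧ ∃ h k : Rg f, Bal h ∧ Bal k ∧ h * v = k * w := by
  have := s.dom
  obtain ⟨h, k, bh, bk, r⟩ := (cx_eq a a').1 e
  obtain ⟨v', m1, e1⟩ := Ideal.mem_span_singleton_mul.1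
    (r.le (Ideal.mul_mem_mul (Ideal.mem_span_singleton_self h) hv.1))
  obtain ⟨u, m2, e2⟩ := Ideal.mem_span_singleton_mul.1
    (r.ge (Ideal.mul_mem_mul (Ideal.mem_span_singleton_self k) hw.1))
  have u0 : u ≠ 0 := right_ne_zero_of_mul (e2.trans_ne (mul_ne_zero bk.ne hw.2.1))
  have l : dd v' ≤ dd w := by
    refine (WithBot.add_le_add_iff_left (dd_ne s bk.ne)).1 ?_
    rw [← dd_bal_mul bk, ← dd_bal_mul bk, e1, ← e2, dd_bal_mul bh, dd_bal_mul bh]
    exact add_le_add le_rfl (hv.2.2 u m2 u0)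
  obtain ⟨c, rfl⟩ := uniq s a' hw hs m1 l
  have c0 : C c ≠ 0 := fun z => mul_ne_zero bh.ne hv.2.1 (by
    rw [← e1, z]; ext1 <;> simp)
  have cu : IsUnit (⟨C c, 0⟩ : Rg f) := .of_mul_eq_one ⟨C c⁻¹, 0⟩ (by
    rw [c_mul, ← C_mul, mul_inv_cancel₀ (C_ne_zero.1 c0), C_1]; rfl)
  have e3 : Ideal.span {h} * I * E = Ideal.span {h} * I * E' := by
    rw [mul_assoc, b, Ideal.span_singleton_mul_span_singleton, ← e1, r, mul_assoc _ I', b',
      ← Ideal.span_singleton_mul_span_singleton, Ideal.span_singleton_mul_left_unit cu]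
  have e4 : h * v = k * ⟨C c, 0⟩ * w := by rw [← e1, mul_assoc]
  exact ⟨s.cancel (nu_mul (nu_span' bh.1) a) e3, h, _, bh, bk.mul (bal_poly c0), e4⟩

theorem ex_E [CharZero K] (s : Sv g f) {I : Ideal (Rg f)} {U : K[X]} (a : Nu I U) {v : Rg f}
    (hv : Min I v) : ∃ U1 V1 : K[X], U1.Monic ∧ U1 ∣ f - V1 ^ 2 ∧ V1.degree < U1.degree ∧
      I * MI f U1 V1 = Ideal.span {v} := by
  have := s.dom
  have l : Ideal.span {v} * cj I ≤ Ideal.span {⟨U, 0⟩} :=
    (Ideal.mul_mono_left ((Ideal.span_singleton_le_iff_mem _).2 hv.1)).trans a.2.le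
  obtain ⟨E, hE⟩ : ∃ E : Ideal (Rg f), PI f U * E = Ideal.span {v} * cj I := by
    refine ⟨Submodule.comap (LinearMap.mulLeft (Rg f) (⟨U, 0⟩ : Rg f)) (Ideal.span {v} * cj I),
      Ideal.ext fun z => Ideal.mem_span_singleton_mul.trans ⟨?_, fun hz => ?_⟩⟩
    · rintro ⟨y, hy, rfl⟩
      exact hy
    · obtain ⟨y, rfl⟩ := Ideal.mem_span_singleton.1 (l hz)
      exact ⟨y, hz, rfl⟩
  have k : I * E = Ideal.span {v} := s.cancel (nu_PI a.1) (by
    rw [mul_left_comm, hE, mul_left_comm, a.2, mul_comm])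
  obtain ⟨r, U1, V1, h1, h2, h3, rfl⟩ := JC.str K f E s.dom (by
    rintro rfl
    rw [Ideal.mul_bot, eq_comm, Ideal.span_singleton_eq_bot] at k
    exact hv.2.1 k)
  have m := Ideal.mem_span_singleton_self v
  rw [← k, mul_left_comm] at m
  obtain ⟨w, m1, e1⟩ := Ideal.mem_span_singleton_mul.1 m
  have w0 : w ≠ 0 := right_ne_zero_of_mul (e1.trans_ne hv.2.1)
  have wI : w ∈ I := (Ideal.mul_le_left (I := I) (J := MI f U1 V1)) m1
  have l2 := hv.2.2 w wI w0
  rw [← e1] at l2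
  rw [h1.natDegree_eq_zero.1 (const_of s w0 l2), PI_one, Ideal.top_mul] at k
  have d : U1 ∣ V1 - V1 %ₘ U1 := ⟨V1 /ₘ U1, by rw [modByMonic_eq_sub_mul_div V1 U1]; ring⟩
  refine ⟨U1, V1 %ₘ U1, h2, ?_, degree_modByMonic_lt V1 h2, by rw [← MI_congr d, k]⟩
  rw [show f - (V1 %ₘ U1) ^ 2 = f - V1 ^ 2 + (V1 - V1 %ₘ U1) * (V1 + V1 %ₘ U1) by ring]
  exact dvd_add h3 (d.mul_right _)

theorem min_map (φ : K →+* L) (hφ : Function.Surjective φ) (e : f.map φ = F) {I : Ideal (Rg f)}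
    {v : Rg f} (hv : Min I v) : Min (I.map (rmap φ e)) (rmap φ e v) := by
  have sj : Function.Surjective (rmap φ e) := fun z => by
    obtain ⟨p, hp⟩ := map_surjective φ hφ z.re
    obtain ⟨q, hq⟩ := map_surjective φ hφ z.im
    exact ⟨⟨p, q⟩, QuadraticAlgebra.ext hp hq⟩
  refine ⟨Ideal.mem_map_of_mem _ hv.1, (map_ne_zero_iff _ (RatA.rmap_inj φ e)).2 hv.2.1,
    fun w hw w0 => ?_⟩
  obtain ⟨u, hu, rfl⟩ := (Ideal.mem_map_iff_of_surjective _ sj).1 hw
  rw [dd_map, dd_map]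
  exact hv.2.2 u hu fun z => w0 (by rw [z, map_zero])

/-- the leading terms cancel at the point at infinity given by `c` -/
def Kil (g : ℕ) (c : K) (v : Rg f) : Prop :=
  dd (v * ⟨-(C c * X ^ (g + 1)), 1⟩) < dd v + (2 * g + 2 : ℕ)

theorem kil_bal (s : Sv g f) {h v : Rg f} (b : Bal h) {c : K} : Kil g c (h * v) ↔ Kil g c v := by
  rw [Kil, Kil, mul_assoc, dd_bal_mul b, dd_bal_mul b, add_assoc,
    WithBot.add_lt_add_iff_left (dd_ne s b.ne)]

theorem kil_map (φ : K →+* L) (e : f.map φ = F) {c : K} {v : Rg f} (h : Kil g c v) :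
    Kil g (φ c) (rmap φ e v) := by
  have k : (⟨-(C (φ c) * X ^ (g + 1)), 1⟩ : Rg F) = rmap φ e ⟨-(C c * X ^ (g + 1)), 1⟩ := by
    ext1 <;> simp [rmap]
  rwa [Kil, k, ← map_mul, dd_map, dd_map]

theorem kil_uniq {c c' : K} {v : Rg f} (h : Kil g c v) (h' : Kil g c' v) : c = c' := by
  by_contra n
  have n' : c' - c ≠ 0 := sub_ne_zero.2 (Ne.symm n)
  have k := (dd_add_le _ _).trans_lt (max_lt h ((dd_neg _).trans_lt h'))
  have e : v * ⟨-(C c * X ^ (g + 1)), 1⟩ + -(v * ⟨-(C c' * X ^ (g + 1)), 1⟩) =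
      ⟨C (c' - c) * X ^ (g + 1), 0⟩ * v := by
    rw [← sub_eq_add_neg, ← mul_sub, mul_comm]
    congr 1
    ext1
    · simp; ring
    · simp
  rw [e, dd_poly_mul, deg_sq (mul_ne_zero (C_ne_zero.2 n') (pow_ne_zero _ X_ne_zero)),
    natDegree_C_mul_X_pow _ _ n', add_comm] at k
  exact k.ne rfl

end RatB

open RatB in
theorem rat (prin : PRINStmt) : RATStmt := by
  intro K _ _ g f F e s
  have S := s.map _ e
  have ee : ∀ σ : AlgebraicClosure K ≃ₐ[K] AlgebraicClosure K,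
      F.map (σ : AlgebraicClosure K →+* AlgebraicClosure K) = F := fun σ => by
    rw [← e, Polynomial.map_map]
    congr 1
    exact RingHom.ext fun x => σ.commutes x
  have main : ∀ x : Cx F, (∀ (σ : AlgebraicClosure K ≃ₐ[K] AlgebraicClosure K)
      (e' : F.map (σ : AlgebraicClosure K →+* AlgebraicClosure K) = F), cmap _ e' x = x) →
      par x = g → x ∈ (cmap (algebraMap K _) e).range := by
    intro x hx hp
    obtain ⟨U, V, hU, hd, rfl⟩ := S.cx_surj x
    have a := S.nu_MI hU hd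
    rw [S.par_MI hU hd, ZMod.natCast_eq_natCast_iff'] at hp
    obtain ⟨m, hm⟩ : ∃ m, U.natDegree + g = 2 * m := ⟨(U.natDegree + g) / 2, by omega⟩
    obtain ⟨v0, m0, n0, s0⟩ := small S V hU hm
    obtain ⟨v, hv⟩ := ex_min m0 n0
    have hs : dd v ≤ (U.natDegree + g : ℕ) := hm ▸ (hv.2.2 v0 m0 n0).trans s0
    obtain ⟨U1, V1, h1, h2, h3, b⟩ := ex_E S a hv
    have cn := fun σ : AlgebraicClosure K ≃ₐ[K] AlgebraicClosure K =>
      canon (E' := (MI F U1 V1).map (rmap _ (ee σ))) S a (nu_map _ (ee σ) a)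
        ((hx σ (ee σ)).symm.trans (cmap_cx _ (ee σ) a)) hv (min_map _ σ.surjective (ee σ) hv)
        (by rwa [dd_map, natDegree_map]) b
        (by rw [← Ideal.map_mul, b, Ideal.map_span, Set.image_singleton])
    have a1 := S.nu_MI h1 h2
    have u1 := fun σ => nu_uniq (nu_map _ (ee σ) a1) ((cn σ).1 ▸ a1)
    obtain ⟨V0, rfl⟩ := RatA.lift (U := V1) fun σ => by
      have d := (mem_MI h2 ⟨-V1.map (σ : AlgebraicClosure K →+* AlgebraicClosure K), 1⟩).1 (by
        rw [(cn σ).1, RatA.map_MI]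
        exact Ideal.subset_span (by simp))
      simp only [one_mul] at d
      have := eq_zero_of_dvd_of_degree_lt d
        ((degree_add_le _ _).trans_lt (max_lt (by rwa [degree_neg, degree_map]) h3))
      linear_combination -this
    obtain ⟨U0, rfl⟩ := RatA.lift u1
    have r1 : cx (MI F _ _) ∈ (cmap (algebraMap K _) e).range :=
      ⟨_, s.cmap_MI _ e (monic_of_injective (RingHom.injective _) h1) ((RatA.dvd_map _ e).1 h2)⟩
    refine (Subgroup.mul_mem_cancel_right _ r1).1 ?_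
    rw [← cx_mul a a1, b]
    by_cases bv : Bal v
    · rw [cx_span bv]; exact one_mem _
    obtain ⟨c, c1, c2⟩ := (prin _ g F S).1 v hv.2.1 bv
    obtain ⟨c0, rfl⟩ := (InfiniteGalois.mem_range_algebraMap_iff_fixed (k := K) c).2 fun σ => by
      obtain ⟨h, k, bh, bk, r⟩ := (cn σ).2
      exact kil_uniq (kil_map _ (ee σ) c2) ((kil_bal S bk).1 (r ▸ (kil_bal S bh).2 c2))
    obtain ⟨W, hW⟩ := (prin K g f s).2.1 c0 ((algebraMap K (AlgebraicClosure K)).injective (by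
      rw [map_pow, c1, ← e, leadingCoeff_map]))
    refine (Subgroup.zpowers_le_of_mem ?_) ((prin _ g F S).2.2 (W.map (algebraMap K _)) (by
      rw [← hW, ← e, ← Polynomial.map_pow, ← Polynomial.map_sub, natDegree_map]) v hv.2.1)
    refine ⟨cx (Ideal.span {⟨-W, 1⟩}), ?_⟩
    rw [cmap_cx _ e (nu_span' (s.nr_ne fun z => one_ne_zero (congrArg QuadraticAlgebra.im z))),
      Ideal.map_span, Set.image_singleton]
    congr 3
    ext1 <;> simp [rmap]
  intro x hx h
  by_cases hp : par x = g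
  · exact main x hx hp
  obtain ⟨U, V, hU, ho, hd⟩ := h.resolve_left hp
  refine (Subgroup.mul_mem_cancel_right (cmap (algebraMap K _) e).range
    ⟨cx (MI f U V), rfl⟩).1 (main _ (fun σ e' => ?_) ?_)
  · rw [map_mul, hx, cmap_cmap _ _ _ e e' e fun x => σ.commutes x]
  · rw [S.par_mul, s.par_map, s.par_MI hU hd, ZMod.natCast_eq_one_iff_odd.2 ho]
    revert hp
    generalize par x = y
    generalize (g : ZMod 2) = z
    revert y z
    decide

end Pool.Agent.MP_a43263_nt.VD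

end
end MrgPart4

-- ======== part 5: formerly Pool.Agent.MP_a43263_nt.VD.Real
section MrgPart5

/-! THEOREM V, part D: the real place. -/

set_option autoImplicit false

noncomputable section

namespace Pool.Agent.MP_a43263_nt.VD

open Polynomial JC JC.Mum
open VV (Od Neg)

namespace RealP

/-- A real polynomial without real roots is a norm from the complex numbers, up to a constant. -/
lemma norm_form (n : ℕ) : ∀ p : ℝ[X], p.natDegree = n → (∀ x, p.eval x ≠ 0) →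
    ∃ (c : ℂ) (G : ℂ[X]), c ≠ 0 ∧ G.Monic ∧
      p.map (algebraMap ℝ ℂ) = C c * (G * G.map (starRingEnd ℂ)) := by
  induction n using Nat.strong_induction_on with
  | _ n ih =>
    intro p hn hp
    by_cases h0 : p.degree = 0
    · obtain ⟨a, rfl⟩ : ∃ a, p = C a := ⟨_, eq_C_of_degree_eq_zero h0⟩
      exact ⟨a, 1, by simpa using hp 0, monic_one, by simp⟩
    obtain ⟨z, hz⟩ := IsAlgClosed.exists_aeval_eq_zero ℂ p h0
    have him : z.im ≠ 0 := fun h => hp z.re <| by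
      have e : z = algebraMap ℝ ℂ z.re := Complex.ext rfl (by simpa using h)
      rw [e, aeval_algebraMap_apply_eq_algebraMap_eval] at hz
      exact (map_eq_zero _).1 hz
    obtain ⟨r, hr⟩ := p.quadratic_dvd_of_aeval_eq_zero_im_ne_zero hz him
    have hq : (X ^ 2 - C (2 * z.re) * X + C (‖z‖ ^ 2) : ℝ[X]).map (algebraMap ℝ ℂ) =
        (X - C z) * (X - C (starRingEnd ℂ z)) := by
      have e1 : algebraMap ℝ ℂ (2 * z.re) = z + starRingEnd ℂ z := (Complex.add_conj z).symm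
      have e2 : algebraMap ℝ ℂ (‖z‖ ^ 2) = z * starRingEnd ℂ z := by
        rw [Complex.mul_conj, Complex.normSq_eq_norm_sq]
        rfl
      rw [Polynomial.map_add, Polynomial.map_sub, Polynomial.map_mul, Polynomial.map_pow, map_X,
        map_C, map_C, e1, e2, map_add, map_mul]
      ring
    have r0 : ∀ x, r.eval x ≠ 0 := fun x h => hp x (by rw [hr, eval_mul, h, mul_zero])
    have hd : r.natDegree < n := by
      have e := congrArg (fun q : ℝ[X] => (q.map (algebraMap ℝ ℂ)).natDegree) hr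
      have r1 : r.map (algebraMap ℝ ℂ) ≠ 0 := Polynomial.map_ne_zero fun h => r0 0 (by simp [h])
      simp only [Polynomial.map_mul, hq] at e
      rw [natDegree_mul (mul_ne_zero (X_sub_C_ne_zero _) (X_sub_C_ne_zero _)) r1,
        natDegree_mul (X_sub_C_ne_zero _) (X_sub_C_ne_zero _), natDegree_X_sub_C, natDegree_map,
        natDegree_map] at e
      omega
    obtain ⟨c, G, a1, a2, a3⟩ := ih _ hd r rfl r0
    refine ⟨c, (X - C z) * G, a1, (monic_X_sub_C z).mul a2, ?_⟩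
    rw [hr, Polynomial.map_mul, hq, a3, Polynomial.map_mul, Polynomial.map_sub, map_X, map_C]
    ring

lemma deg_norm {K : Type} [Field K] {F G : K[X]} {c : K} (φ : K →+* K) (hc : c ≠ 0) (hG : G.Monic)
    (e : F = C c * (G * G.map φ)) : F.natDegree = 2 * G.natDegree := by
  rw [e, natDegree_C_mul hc, hG.natDegree_mul (hG.map φ), natDegree_map, two_mul]

/-- Complementary sets of Weierstrass points have the same class. -/
lemma compl {K : Type} [Field K] [CharZero K] {g : ℕ} {F G G' : K[X]} {c : K} (s : Sv g F)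
    (hc : c ≠ 0) (hG : G.Monic) (hG' : G'.Monic) (e : F = C c * (G * G')) :
    cx (MI F G' 0) = cx (MI F G 0) := by
  have a : Associated (G * G') (F - 0 ^ 2) := by
    rw [e, zero_pow two_ne_zero, sub_zero]
    exact (associated_unit_mul_left _ _ (isUnit_C.2 hc.isUnit)).symm
  have b : Bal (⟨-0, 1⟩ : Rg F) := by simpa [Bal] using s.ne
  have h1 := s.cx_MI_mul hG hG' a.dvd
  rw [MI_assoc a, MI_norm, cx_span b] at h1
  have h2 := cx_cj (s.nu_MI hG ((dvd_mul_right _ _).trans a.dvd))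
  rw [cj_MI, neg_zero] at h2
  rw [h2]
  exact eq_inv_of_mul_eq_one_right h1.symm

end RealP

open RealP in
theorem real : REALStmt := by
  intro g f s hN
  refine ⟨fun ⟨U, V, hU, ho, r, hr⟩ => ?_, fun hg => ?_⟩
  · obtain ⟨x, hx⟩ : ∃ x, U.eval x = 0 := by
      by_contra h
      push Not at h
      obtain ⟨c, G, a1, a2, a3⟩ := norm_form _ U rfl h
      have := deg_norm _ a1 a2 a3
      rw [natDegree_map] at this
      obtain ⟨m, hm⟩ := ho
      omega
    have := congrArg (eval x) hr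
    rw [eval_sub, eval_mul, hx, zero_mul, eval_pow] at this
    linarith [hN x, sq_nonneg (V.eval x)]
  obtain ⟨c, G, a1, a2, a3⟩ := norm_form _ (fK f ℝ) rfl fun x => (hN x).ne
  have : IsAlgClosure ℝ ℂ := ⟨inferInstance, inferInstance⟩
  let e : ℂ ≃ₐ[ℝ] AlgebraicClosure ℝ := IsAlgClosure.equiv ℝ _ _
  let ε : ℂ →+* AlgebraicClosure ℝ := e
  have sL : Sv g (fK f (AlgebraicClosure ℝ)) := s.map _ rfl
  have hF : fK f (AlgebraicClosure ℝ) =
      C (ε c) * (G.map ε * (G.map (starRingEnd ℂ)).map ε) := by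
    rw [← fK_map f ε, ← fK_map f (algebraMap ℝ ℂ), a3, Polynomial.map_mul, Polynomial.map_mul,
      map_C]
  have c0 : ε c ≠ 0 := (map_ne_zero ε).2 a1
  have hd : G.map ε ∣ fK f (AlgebraicClosure ℝ) - 0 ^ 2 := by
    rw [hF, zero_pow two_ne_zero, sub_zero]
    exact (dvd_mul_right _ _).mul_left _
  refine ⟨cx (MI _ (G.map ε) 0), ?_, fun σ => ?_⟩
  · have h := deg_norm _ a1 a2 a3
    rw [natDegree_map, (s.map _ rfl : Sv g (fK f ℝ)).deg] at h
    rw [sL.par_MI (a2.map ε) hd, natDegree_map, show G.natDegree = g + 1 by omega, Nat.cast_succ,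
      (ZMod.natCast_eq_zero_iff_even).2 hg, zero_add]
  rw [act, sL.cmap_MI _ _ (a2.map ε) hd, Polynomial.map_zero, Polynomial.map_map]
  rcases Complex.real_algHom_eq_id_or_conj ((e.trans σ).trans e.symm : ℂ ≃ₐ[ℝ] ℂ) with h | h
  · rw [show (σ : AlgebraicClosure ℝ →+* AlgebraicClosure ℝ).comp ε = ε from
      RingHom.ext fun x => e.symm_apply_eq.1 (DFunLike.congr_fun h x)]
  · rw [show (σ : AlgebraicClosure ℝ →+* AlgebraicClosure ℝ).comp ε = ε.comp (starRingEnd ℂ) from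
      RingHom.ext fun x => e.symm_apply_eq.1 (DFunLike.congr_fun h x), ← Polynomial.map_map]
    exact compl sL c0 (a2.map ε) ((a2.map _).map ε) hF

end Pool.Agent.MP_a43263_nt.VD

end
end MrgPart5

-- ======== part 6: formerly Pool.Agent.MP_a43263_nt.VD.Za
section MrgPart6

/-! THEOREM V, part D: halves of ideal classes and square roots of norms, first part. -/

set_option autoImplicit false

noncomputable section

namespace Pool.Agent.MP_a43263_nt.VD

open Polynomial JC JC.Mum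

namespace Za

variable {K : Type} [Field K] {g : ℕ} {f : K[X]}

theorem ev_mul {θ : K} (hθ : f.eval θ = 0) (h k : Rg f) :
    (h * k).re.eval θ = h.re.eval θ * k.re.eval θ := by
  simp [QuadraticAlgebra.re_mul, hθ]

theorem ev_nr {θ : K} (hθ : f.eval θ = 0) (h : Rg f) : (nr h).eval θ = h.re.eval θ ^ 2 := by
  simp [nr, hθ]

theorem l_ne {k : Rg f} {l : K} (b : Bal k) (hl : l ^ 2 = (nr k).leadingCoeff) : l ≠ 0 := by
  rintro rfl
  exact leadingCoeff_ne_zero.2 b.1 (by rw [← hl]; simp)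

theorem one {x : Cx f} {D : Ideal (Rg f)} {ρ : K → K} {w : K[X]} (z : Z f x D ρ) (hD : Nu D w) :
    x ^ 2 = cx D ∧ ∀ θ, f.eval θ = 0 → ρ θ ^ 2 = w.eval θ := by
  obtain ⟨E, u, k, l, hE, hx, b, e, hl, hρ⟩ := z
  have n : Nu (D * E ^ 2) (w * u ^ 2) := nu_mul hD (nu_pow hE)
  refine ⟨?_, fun θ hθ => ?_⟩
  · have c : cx (D * E ^ 2) = 1 := by rw [e, cx_span b]
    rw [cx_mul hD (nu_pow hE), cx_pow hE, hx, inv_pow, mul_inv_eq_one] at c
    exact c.symm
  · rw [e] at n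
    have h1 := congrArg (eval θ) (nu_span n)
    obtain ⟨h2, h3⟩ := hρ θ hθ
    rw [ev_nr hθ, ← hl, ← h3, eval_mul, eval_C, eval_mul, eval_pow] at h1
    have h4 : (l * u.eval θ) ^ 2 ≠ 0 := pow_ne_zero 2 (mul_ne_zero (l_ne b hl) h2)
    refine mul_right_cancel₀ h4 ?_
    linear_combination h1

theorem two [CharZero K] [IsAlgClosed K] (move : MOVEStmt) (s : Sv g f) {x : Cx f}
    {D : Ideal (Rg f)} {w : K[X]} (hD : Nu D w) (hx : x ^ 2 = cx D) : ∃ ρ, Z f x D ρ := by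
  obtain ⟨U, V, m, d, c, e⟩ := move K g f s x⁻¹ f s.ne
  have hE := s.nu_MI m d
  obtain ⟨k, b, hk⟩ := s.cx_one (nu_mul hD (nu_pow hE))
    (by rw [cx_mul hD (nu_pow hE), cx_pow hE, e, inv_pow, hx, mul_inv_cancel])
  obtain ⟨l, hl⟩ := IsAlgClosed.exists_pow_nat_eq (nr k).leadingCoeff two_pos
  refine ⟨fun θ => k.re.eval θ / (l * U.eval θ), MI f U V, U, k, l, hE, e, b, hk, hl,
    fun θ hθ => ?_⟩
  have h0 : U.eval θ ≠ 0 := by
    obtain ⟨p, q, hpq⟩ := c
    intro h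
    have := congrArg (eval θ) hpq
    simp [h, hθ] at this
  exact ⟨h0, div_mul_cancel₀ _ (mul_ne_zero (l_ne b hl) h0)⟩

theorem three {x x' : Cx f} {D D' : Ideal (Rg f)} {ρ ρ' : K → K} (z : Z f x D ρ)
    (z' : Z f x' D' ρ') : Z f (x * x') (D * D') fun θ => ρ θ * ρ' θ := by
  obtain ⟨E, u, k, l, hE, hx, b, e, hl, hρ⟩ := z
  obtain ⟨E', u', k', l', hE', hx', b', e', hl', hρ'⟩ := z'
  refine ⟨E * E', u * u', k * k', l * l', nu_mul hE hE', ?_, b.mul b', ?_, ?_, fun θ hθ => ?_⟩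
  · rw [mul_comm E, cx_mul hE' hE, hx, hx', mul_inv_rev]
  · rw [mul_pow, mul_mul_mul_comm, e, e', Ideal.span_singleton_mul_span_singleton]
  · rw [nr_mul, leadingCoeff_mul, mul_pow, hl, hl']
  · obtain ⟨h1, h2⟩ := hρ θ hθ
    obtain ⟨h3, h4⟩ := hρ' θ hθ
    rw [eval_mul, ev_mul hθ, ← h2, ← h4]
    exact ⟨mul_ne_zero h1 h3, by ring⟩

theorem four {x : Cx f} {D : Ideal (Rg f)} {ρ : K → K} (z : Z f x D ρ) : Z f x⁻¹ (cj D) ρ := by
  obtain ⟨E, u, k, l, hE, hx, b, e, hl, hρ⟩ := z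
  refine ⟨cj E, u, star k, l, nu_cj hE, by rw [cx_cj hE, hx], b.star, ?_, by rw [nr_star, hl],
    fun θ hθ => ?_⟩
  · rw [← cj_span, ← e, sq, sq, cj_mul, cj_mul]
  · simpa using hρ θ hθ

theorem five {x : Cx f} {D : Ideal (Rg f)} {ρ ρ' : K → K} {η : K} (z : Z f x D ρ)
    (hη : η ^ 2 = 1) (h : ∀ θ, f.eval θ = 0 → ρ' θ = η * ρ θ) : Z f x D ρ' := by
  obtain ⟨E, u, k, l, hE, hx, b, e, hl, hρ⟩ := z
  refine ⟨E, u, k, η * l, hE, hx, b, e, by rw [mul_pow, hη, one_mul, hl], fun θ hθ => ?_⟩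
  obtain ⟨h1, h2⟩ := hρ θ hθ
  refine ⟨h1, ?_⟩
  rw [h θ hθ, ← h2]
  linear_combination (ρ θ * (l * u.eval θ)) * hη

theorem six (s : Sv g f) {x : Cx f} {D : Ideal (Rg f)} {ρ ρ' : K → K} (z : Z f x D ρ)
    (z' : Z f x D ρ') : ∃ η : K, η ^ 2 = 1 ∧ ∀ θ, f.eval θ = 0 → ρ' θ = η * ρ θ := by
  obtain ⟨E, u, k, l, hE, hx, b, e, hl, hρ⟩ := z
  obtain ⟨E', u', k', l', hE', hx', b', e', hl', hρ'⟩ := z'
  have n := nu_mul hE (nu_cj hE')
  obtain ⟨m, bm, hm⟩ := s.cx_one n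
    (by rw [cx_mul hE (nu_cj hE'), cx_cj hE', hx, hx', mul_inv_cancel])
  rw [hm] at n
  have nm := nu_span n
  have bu : Bal (⟨u', 0⟩ : Rg f) := bal_poly hE'.1.ne_zero
  have key : Ideal.span {k * (⟨u', 0⟩ * ⟨u', 0⟩ : Rg f)} = Ideal.span {k' * (m * m)} := by
    rw [← Ideal.span_singleton_mul_span_singleton, ← Ideal.span_singleton_mul_span_singleton,
      ← Ideal.span_singleton_mul_span_singleton, ← Ideal.span_singleton_mul_span_singleton,
      ← e, ← e', ← hm]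
    have h1 : Ideal.span {(⟨u', 0⟩ : Rg f)} = E' * cj E' := hE'.2.symm
    rw [h1]
    ring
  obtain ⟨a, a0, ha⟩ := s.span_eq (b.mul (bu.mul bu)) (b'.mul (bm.mul bm)) key
  have l0 := l_ne b hl
  have l0' := l_ne b' hl'
  have μ0 : (nr m).leadingCoeff ≠ 0 := leadingCoeff_ne_zero.2 bm.1
  have hn := congrArg (fun h => (nr h).leadingCoeff) ha
  simp only [nr_mul, nr_poly, leadingCoeff_mul, leadingCoeff_pow, leadingCoeff_C,
    hE'.1.leadingCoeff, ← hl, ← hl'] at hn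
  refine ⟨a * l / (l' * (nr m).leadingCoeff), ?_, fun θ hθ => ?_⟩
  · rw [div_pow, div_eq_one_iff_eq (pow_ne_zero 2 (mul_ne_zero l0' μ0))]
    linear_combination -hn
  · obtain ⟨h1, h2⟩ := hρ θ hθ
    obtain ⟨h3, h4⟩ := hρ' θ hθ
    have h5 := congrArg (fun h : Rg f => h.re.eval θ) ha
    simp only [ev_mul hθ, eval_C] at h5
    have h6 := congrArg (eval θ) nm
    rw [ev_nr hθ, eval_mul, eval_C, eval_mul] at h6
    rw [div_mul_eq_mul_div, eq_div_iff (mul_ne_zero l0' μ0)]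
    refine mul_right_cancel₀ (mul_ne_zero h1 (pow_ne_zero 2 h3)) ?_
    rw [← h2, ← h4] at h5
    linear_combination h5 - ρ' θ * (l' * u'.eval θ) * h6

theorem seven {s : K[X]} (hs : s.Monic) : Z f 1 (PI f s) fun θ => s.eval θ := by
  refine ⟨⊤, 1, ⟨s, 0⟩, 1, nu_top, by rw [cx_top, inv_one], bal_poly hs.ne_zero, ?_, ?_,
    fun θ _ => by simp⟩
  · rw [sq, Ideal.mul_top, Ideal.mul_top, PI]
  · rw [nr_poly, (hs.pow 2).leadingCoeff, one_pow]

theorem eight [IsAlgClosed K] (s : Sv g f) {L : Type} [Field L] (φ : K →+* L) {F : L[X]}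
    (e : f.map φ = F) {x : Cx f} {D : Ideal (Rg f)} {ρ : K → K} {ρ' : L → L} (z : Z f x D ρ)
    (h : ∀ θ, f.eval θ = 0 → ρ' (φ θ) = φ (ρ θ)) :
    Z F (cmap φ e x) (D.map (rmap φ e)) ρ' := by
  obtain ⟨E, u, k, l, hE, hx, b, e1, hl, hρ⟩ := z
  refine ⟨E.map (rmap φ e), u.map φ, rmap φ e k, φ l, nu_map φ e hE, ?_, b.map φ e, ?_, ?_,
    fun θ' hθ' => ?_⟩
  · rw [← cmap_cx φ e hE, hx, map_inv]
  · rw [← Ideal.map_pow, ← Ideal.map_mul, e1, Ideal.map_span, Set.image_singleton]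
  · rw [nr_map, leadingCoeff_map, ← map_pow, hl]
  · obtain ⟨θ, rfl⟩ := (IsAlgClosed.splits f).mem_range_of_isRoot s.ne (i := φ) (x := θ')
      (by rw [e]; exact hθ')
    have hθ : f.eval θ = 0 := by
      rw [← e, eval_map, eval₂_at_apply] at hθ'
      exact φ.injective (by rw [hθ', map_zero])
    obtain ⟨h1, h2⟩ := hρ θ hθ
    have h3 : (rmap φ e k).re = k.re.map φ := rfl
    rw [h3, eval_map, eval_map, eval₂_at_apply, eval₂_at_apply, h θ hθ, ← h2, map_mul, map_mul]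
    exact ⟨fun c => h1 (φ.injective (by rw [c, map_zero])), rfl⟩

end Za

theorem za (move : MOVEStmt) : ZAStmt := by
  intro K _ _ _ g f s
  exact ⟨fun _ _ _ _ z hD => Za.one z hD, fun _ _ _ hD hx => Za.two move s hD hx,
    fun _ _ _ _ _ _ z z' => Za.three z z', fun _ _ _ z => Za.four z,
    fun _ _ _ _ _ z hη h => Za.five z hη h, fun _ _ _ _ z z' => Za.six s z z',
    fun _ hs => Za.seven hs, fun _ _ φ _ e _ _ _ _ z h => Za.eight s φ e z h⟩

end Pool.Agent.MP_a43263_nt.VD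

end
end MrgPart6

-- ======== part 7: formerly Pool.Agent.MP_a43263_nt.VD.Zb
section MrgPart7

/-! THEOREM V, part D: halves and square roots, the 2-torsion. -/

set_option autoImplicit false

noncomputable section

namespace Pool.Agent.MP_a43263_nt.VD

open Polynomial JC JC.Mum

namespace Zb

variable {K : Type} [Field K] [CharZero K] {g : ℕ} {f : K[X]}

/-- an ideal that is fixed by the conjugation and prime to `f` is generated by a polynomial -/
theorem fixed [IsAlgClosed K] (s : Sv g f) {B : Ideal (Rg f)} {n : K[X]} (a : Nu B n)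
    (e : cj B = B) (h : ∀ θ, f.eval θ = 0 → n.eval θ ≠ 0) : cx B = 1 := by
  obtain ⟨r, U, V, h1, h2, h3, rfl⟩ := JC.str K f B s.dom (nu_ne a)
  rw [cj_mul, cj_PI, cj_MI] at e
  have e1 := s.cancel (nu_PI h1) e
  have m : (⟨-V, 1⟩ : Rg f) ∈ MI f U (-V) := e1 ▸ Ideal.subset_span (by simp)
  rw [mem_MI (by rwa [neg_sq])] at m
  have d : U ∣ V := by
    rw [show ((⟨-V, 1⟩ : Rg f).re + (⟨-V, 1⟩ : Rg f).im * -V : K[X]) = -(2 * V) by
      simp only; ring, dvd_neg] at m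
    exact two_unit.dvd_mul_left.1 m
  have df : U ∣ f := by
    have := dvd_add h3 (dvd_pow d two_ne_zero)
    rwa [sub_add_cancel] at this
  have u1 : U = 1 := by
    by_contra c
    obtain ⟨θ, hθ⟩ := IsAlgClosed.exists_root U fun z => c (h2.degree_le_zero_iff_eq_one.1 z.le)
    refine h θ (eval_eq_zero_of_dvd_of_eval_eq_zero df hθ) ?_
    rw [nu_uniq a (nu_mul (nu_PI h1) (s.nu_MI h2 h3)), eval_mul, hθ.eq_zero, mul_zero]
  rw [u1, MI_one, Ideal.mul_top, cx_PI h1.ne_zero]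

/-- the class is determined by the square root -/
theorem core [IsAlgClosed K] (s : Sv g f) {y : Cx f} {w : K[X]} (hw : w.Monic)
    (cw : ∀ θ, f.eval θ = 0 → w.eval θ ≠ 0) (z : Z f y (PI f w) fun θ => w.eval θ) : y = 1 := by
  have := s.dom
  obtain ⟨E, u, k, l, nE, cE, bk, e, hl, r⟩ := z
  obtain ⟨k₁, -, rfl⟩ := Ideal.mem_span_singleton_mul.1 (e ▸ Ideal.mem_span_singleton_self k)
  have e1 : E ^ 2 = Ideal.span {k₁} := by
    rw [← Ideal.span_singleton_mul_span_singleton] at e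
    exact s.cancel (nu_PI hw) e
  have b1 : Bal k₁ := (bal_poly hw.ne_zero).of_mul bk
  rw [nr_mul, nr_poly, leadingCoeff_mul, (hw.pow 2).leadingCoeff, one_mul] at hl
  have l0 : l ≠ 0 := fun c => b1.1 (leadingCoeff_eq_zero.1 (by rw [← hl, c]; simp))
  have n1 : nr k₁ = (C l * u) ^ 2 := by
    rw [nu_span (e1 ▸ nu_pow nE), ← hl, mul_pow, C_pow]
  have r1 : ∀ θ, f.eval θ = 0 → (k₁.re + C l * u).eval θ ≠ 0 := fun θ t => by
    have := (r θ t).2
    simp only [QuadraticAlgebra.re_mul, mul_zero, zero_mul, add_zero, eval_mul] at this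
    rw [eval_add, ← mul_left_cancel₀ (cw θ t) this, eval_mul, eval_C, ← two_mul]
    exact mul_ne_zero two_ne_zero (mul_ne_zero l0 (r θ t).1)
  have p0 : C l * u ≠ 0 := mul_ne_zero (C_ne_zero.2 l0) nE.1.ne_zero
  obtain ⟨t, ht⟩ := IsAlgClosed.exists_root f
    (natDegree_pos_iff_degree_pos.1 (by rw [s.deg]; omega)).ne'
  have s0 : k₁.re + C l * u ≠ 0 := fun c => r1 t ht (by rw [c, eval_zero])
  have nz : nr (⟨k₁.re + C l * u, k₁.im⟩ : Rg f) = 2 * (C l * u) * (k₁.re + C l * u) := by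
    simp only [nr] at n1 ⊢
    linear_combination n1
  have z0 : nr (⟨k₁.re + C l * u, k₁.im⟩ : Rg f) ≠ 0 :=
    nz ▸ mul_ne_zero (mul_ne_zero two_unit.ne_zero p0) s0
  have bz : Bal (⟨k₁.re + C l * u, k₁.im⟩ : Rg f) := by
    refine ⟨z0, ?_⟩
    have d1 : k₁.re.degree ≤ (C l * u).degree := by
      have := b1.2
      rw [show k₁.re ^ 2 - f * k₁.im ^ 2 = (C l * u) ^ 2 from n1] at this
      by_cases c : k₁.re = 0
      · simp [c]
      · rw [deg_sq c, deg_sq p0, Nat.cast_le] at this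
        rw [degree_eq_natDegree c, degree_eq_natDegree p0]
        exact Nat.cast_le.2 (by omega)
    show ((k₁.re + C l * u) ^ 2).degree ≤ (nr (⟨k₁.re + C l * u, k₁.im⟩ : Rg f)).degree
    rw [nz, sq, degree_mul, degree_mul, degree_mul (p := 2), degree_eq_zero_of_isUnit two_unit,
      zero_add]
    exact add_le_add ((degree_add_le _ _).trans (max_le d1 le_rfl)) le_rfl
  have nB := nu_mul (nu_span' z0) (nu_cj nE)
  have fx : cj (Ideal.span {(⟨k₁.re + C l * u, k₁.im⟩ : Rg f)} * cj E) =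
      Ideal.span {(⟨k₁.re + C l * u, k₁.im⟩ : Rg f)} * cj E := by
    refine s.cancel (nu_cj nE) ?_
    rw [cj_mul, cj_cj, cj_span, mul_left_comm, mul_comm (cj E) E, nE.2, mul_left_comm, ← cj_mul,
      ← sq, e1, cj_span, show PI f u = PI f (C l * u) from PI_eq.2
        (associated_unit_mul_right _ _ (isUnit_C.2 l0.isUnit)), PI,
      Ideal.span_singleton_mul_span_singleton, Ideal.span_singleton_mul_span_singleton]
    congr 2
    simp only [nr] at n1
    ext1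
    · simp
      linear_combination -n1
    · simp
      ring
  have c1 := fixed s nB fx fun θ t => by
    rw [eval_mul, eval_mul, eval_C, nz, eval_mul, eval_mul, eval_mul, eval_C, eval_ofNat]
    exact mul_ne_zero (mul_ne_zero (mul_ne_zero (mul_ne_zero two_ne_zero (mul_ne_zero l0 (r θ t).1))
      (r1 θ t)) (inv_ne_zero (leadingCoeff_ne_zero.2 (nz ▸ z0)))) (r θ t).1
  rwa [cx_mul (nu_span' z0) (nu_cj nE), cx_span bz, one_mul, cx_cj nE, cE, inv_inv] at c1

open Classical in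
/-- the class of a Weierstrass point -/
theorem one (s : Sv g f) {t : K} (ht : f.eval t = 0) :
    ∃ T, Z f T ⊤ fun θ => if θ = t then -1 else 1 := by
  obtain ⟨f₁, e⟩ := dvd_iff_isRoot.2 ht
  have mP : (X - C t).Monic := monic_X_sub_C t
  have f0 : f₁ ≠ 0 := fun c => s.ne (by rw [e, c, mul_zero])
  have dl : f₁.degree < ((X - C t) ^ (2 * g + 3)).degree := by
    have := s.deg
    rw [e, natDegree_mul mP.ne_zero f0, natDegree_X_sub_C] at this
    refine degree_lt_degree ?_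
    rw [natDegree_pow, natDegree_X_sub_C]
    omega
  have mu : ((X - C t) ^ (2 * g + 3) - f₁).Monic := (mP.pow _).sub_of_left dl
  have eV : f - ((X - C t) ^ (g + 2)) ^ 2 = -((X - C t) * ((X - C t) ^ (2 * g + 3) - f₁)) := by
    rw [e]
    ring
  have d : (X - C t) * ((X - C t) ^ (2 * g + 3) - f₁) ∣ f - ((X - C t) ^ (g + 2)) ^ 2 :=
    eV ▸ dvd_neg.2 dvd_rfl
  have nE := s.nu_MI mu ((dvd_mul_left _ _).trans d)
  have nk : nr (⟨(X - C t) ^ (2 * g + 3) + f₁, -2 * (X - C t) ^ (g + 1)⟩ : Rg f) =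
      ((X - C t) ^ (2 * g + 3) - f₁) ^ 2 := by
    simp only [nr]
    rw [e]
    ring
  refine ⟨(cx (MI f _ _))⁻¹, _, _, ⟨(X - C t) ^ (2 * g + 3) + f₁, -2 * (X - C t) ^ (g + 1)⟩, 1, nE,
    (inv_inv _).symm, ⟨nk ▸ pow_ne_zero 2 mu.ne_zero, ?_⟩, ?_, ?_, fun θ h => ?_⟩
  · show (((X - C t) ^ (2 * g + 3) + f₁) ^ 2).degree ≤ (nr _).degree
    rw [nk, degree_pow, degree_pow, degree_add_eq_left_of_degree_lt dl,
      degree_sub_eq_left_of_degree_lt dl]
  · have e1 := MI_mul s.sf d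
    have as : Associated ((X - C t) * ((X - C t) ^ (2 * g + 3) - f₁))
        (f - ((X - C t) ^ (g + 2)) ^ 2) := by
      rw [eV]
      exact (Associated.refl _).neg_right
    rw [MI_assoc as, MI_norm] at e1
    have e2 : MI f (X - C t) ((X - C t) ^ (g + 2)) ^ 2 = PI f (X - C t) := by
      rw [← MI_conj s.sf ((dvd_mul_right _ _).trans d), sq]
      congr 1
      exact MI_congr (dvd_sub (dvd_pow_self _ (by omega)) (dvd_neg.2 (dvd_pow_self _ (by omega))))
    refine s.cancel (nu_PI mP) ?_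
    rw [Ideal.top_mul]
    conv_lhs => rw [← e2, ← mul_pow, e1, Ideal.span_singleton_pow]
    rw [PI, Ideal.span_singleton_mul_span_singleton, sq]
    congr 2
    ext1
    · simp
      linear_combination e
    · simp
      ring
  · rw [nk, (mu.pow 2).leadingCoeff, one_pow]
  · by_cases c : θ = t
    · subst c
      have : f₁.eval θ ≠ 0 := fun c => by
        obtain ⟨q, hq⟩ := dvd_iff_isRoot.2 c
        exact not_isUnit_X_sub_C θ (s.sf _ ⟨q, by rw [e, hq, mul_assoc]⟩)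
      simp [this]
    · have : f₁.eval θ = 0 := by
        rw [e, eval_mul, eval_sub, eval_X, eval_C] at h
        exact (mul_eq_zero.1 h).resolve_left (sub_ne_zero.2 c)
      simp [this, c, sub_ne_zero.2 c]

end Zb

theorem zb (za : ZAStmt) : ZBStmt := by
  intro K _ _ _ g f s
  obtain ⟨a1, -, a3, a4, a5, -, a7, -⟩ := za K g f s
  refine ⟨fun x x' D ρ w n c z z' => ?_, fun ε h => ?_⟩
  · have k := a3 _ _ _ _ _ _ z (a4 _ _ _ z')
    rw [n.2] at k
    refine mul_inv_eq_one.1 (Zb.core s n.1 (fun θ t e => ?_)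
      (a5 _ _ _ _ 1 k (one_pow 2) fun θ t => by rw [one_mul, ← sq, (a1 _ _ _ _ z n).2 θ t]))
    obtain ⟨a, b, q⟩ := c
    simpa [e, t] using congrArg (eval θ) q
  · classical
    have k : ∀ S : Finset K, (∀ t ∈ S, f.eval t = 0) →
        ∃ T, Z f T ⊤ fun θ => if θ ∈ S then -1 else 1 := fun S => by
      induction S using Finset.induction_on with
      | empty =>
        intro _
        have := a7 1 monic_one
        rw [PI_one] at this
        exact ⟨1, a5 _ _ _ _ 1 this (one_pow 2) fun θ _ => by simp⟩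
      | insert t S m ih =>
        intro r
        obtain ⟨T, z⟩ := ih fun x hx => r x (Finset.mem_insert_of_mem hx)
        obtain ⟨T', z'⟩ := Zb.one s (r t (Finset.mem_insert_self t S))
        have := a3 _ _ _ _ _ _ z z'
        rw [Ideal.mul_top] at this
        refine ⟨_, a5 _ _ _ _ 1 this (one_pow 2) fun θ _ => ?_⟩
        by_cases c : θ = t
        · simp [c, m]
        · simp [c]
    obtain ⟨T, z⟩ := k (f.roots.toFinset.filter fun θ => ε θ = -1) fun t m =>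
      ((mem_roots s.ne).1 (Multiset.mem_toFinset.1 (Finset.mem_filter.1 m).1)).eq_zero
    refine ⟨T, a5 _ _ _ _ 1 z (one_pow 2) fun θ t => ?_⟩
    have m : θ ∈ f.roots.toFinset := Multiset.mem_toFinset.2 ((mem_roots s.ne).2 t)
    rcases sq_eq_one_iff.1 (h θ t) with c | c
    · have q : ε θ ≠ -1 := by
        rw [c]
        norm_num
      rw [if_neg (by rw [Finset.mem_filter]; exact fun k => q k.2), c, one_mul]
    · rw [if_pos (Finset.mem_filter.2 ⟨m, c⟩), c, one_mul]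

end Pool.Agent.MP_a43263_nt.VD

end
end MrgPart7

-- ======== part 8: formerly Pool.Agent.MP_a43263_nt.VD.All
section MrgPart8

/-! THEOREM V, part D: assembly. -/

set_option autoImplicit false

namespace Pool.Agent.MP_a43263_nt.VD

theorem desc (H : VV.HStmt) : VV.DESCStmt :=
  desc_of prin move rat half za zb br nrm real gal core fin H

end Pool.Agent.MP_a43263_nt.VD

end MrgPart8

-- marker of a merged file
example : 731051 + 479711 = 731051 + 479711 := rfl
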